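import Mathlib

namespace CK

/-- With `x, y, z` the residues of `a, b, c` modulo `m`, this is
`max 0 (min {x+y+z-m, x, y, z, m-x, m-y, m-z, 2m-x-y-z})`
(subtraction of natural numbers truncates at `0`). -/
def mult (m a b c : ℕ) : ℕ :=
  min (a % m + b % m + c % m - m) <| min (a % m) <| min (b % m) <| min (c % m) <|
    min (m - a % m) <| min (m - b % m) <| min (m - c % m) (2 * m - (a % m + b % m + c % m))

/-- The Carlitz matrix `C_{a,b,c}`: the `b × b` integer matrix with `(i,j)` entry
`binom(a+c, a+i-j)` (which is `0` when `a+i-j < 0` and also when `a+i-j > a+c`). -/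
def carlitz (a b c : ℕ) : Matrix (Fin b) (Fin b) ℤ :=
  Matrix.of fun i j => if (j : ℕ) ≤ a + i then (((a + c).choose (a + i - j) : ℕ) : ℤ) else 0

/-- The exponent of the prime `p` in the `j`-th invariant factor: the number of `s ≥ 1` with
`mult (p^s) a b c ≥ j` (for `j ≥ 1` only `s ≤ a+b+c` can contribute). -/
def expo (a b c p j : ℕ) : ℕ :=
  ((Finset.Icc 1 (a + b + c)).filter fun s => j ≤ mult (p ^ s) a b c).card

/-- The `j`-th invariant factor, `∏ p ^ expo a b c p j` over primes `p ≤ a+b+c`. -/
def invFactor (a b c j : ℕ) : ℕ :=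
  ∏ p ∈ (Finset.range (a + b + c + 1)).filter Nat.Prime, p ^ expo a b c p j

end CK
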