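import Mathlib
import Pool.Agent.Helper472.CK.Defs

open Polynomial

namespace CK

theorem sum_choose_coeff (P : ℤ[X]) (a i b : ℕ) (hi : i < b) :
    ∑ k : Fin b, ((i.choose k : ℕ) : ℤ) * P.coeff (a + k) = ((X + 1) ^ i * P).coeff (a + i) := by
  rw [Fin.sum_univ_eq_sum_range (fun k => ((i.choose k : ℕ) : ℤ) * P.coeff (a + k)) b,
    coeff_mul, Finset.Nat.sum_antidiagonal_eq_sum_range_succ_mk]
  simp only [coeff_X_add_one_pow]
  have h1 : ∑ k ∈ Finset.range b, ((i.choose k : ℕ) : ℤ) * P.coeff (a + k)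
      = ∑ k ∈ Finset.range (i + 1), ((i.choose k : ℕ) : ℤ) * P.coeff (a + k) := by
    symm
    apply Finset.sum_subset
    · intro x hx
      rw [Finset.mem_range] at hx ⊢; omega
    · intro x _ hx
      rw [Finset.mem_range] at hx
      rw [Nat.choose_eq_zero_of_lt (by omega)]; simp
  have h2 : ∑ k ∈ Finset.range (a + i).succ, ((i.choose k : ℕ) : ℤ) * P.coeff (a + i - k)
      = ∑ k ∈ Finset.range (i + 1), ((i.choose k : ℕ) : ℤ) * P.coeff (a + i - k) := by
    symm
    apply Finset.sum_subset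
    · intro x hx
      rw [Finset.mem_range] at hx ⊢; omega
    · intro x _ hx
      rw [Finset.mem_range] at hx
      rw [Nat.choose_eq_zero_of_lt (by omega)]; simp
  rw [h1]
  refine Eq.trans ?_ h2.symm
  rw [← Finset.sum_range_reflect]
  apply Finset.sum_congr rfl
  intro k hk
  rw [Finset.mem_range] at hk
  have e1 : i + 1 - 1 - k = i - k := by omega
  rw [e1, Nat.choose_symm (by omega)]
  congr 2
  omega

theorem carlitz_eq_coeff (a b c : ℕ) (i j : Fin b) :
    carlitz a b c i j = ((X + 1) ^ (a + c) * X ^ (j : ℕ) : ℤ[X]).coeff (a + i) := by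
  rw [coeff_mul_X_pow', coeff_X_add_one_pow]
  rfl

/-- Pascal matrix -/
def pascal (b : ℕ) : Matrix (Fin b) (Fin b) ℤ := Matrix.of fun i k => (((i : ℕ).choose k : ℕ) : ℤ)

theorem det_pascal (b : ℕ) : (pascal b).det = 1 := by
  rw [Matrix.det_of_isLowerTriangular]
  · simp [pascal]
  · intro i j hij
    simp only [pascal, Matrix.of_apply]
    rw [Nat.choose_eq_zero_of_lt]; simp
    simpa using hij

theorem pascal_mul (a b c : ℕ) : pascal b * carlitz a b c * (pascal b).transpose
    = Matrix.of fun i j : Fin b => (((a + c + i + j).choose (a + i) : ℕ) : ℤ) := by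
  ext i j
  rw [Matrix.mul_apply]
  have h1 : ∀ l : Fin b, (pascal b * carlitz a b c) i l
      = ((X + 1) ^ (i : ℕ) * ((X + 1) ^ (a + c) * X ^ (l : ℕ)) : ℤ[X]).coeff (a + i) := by
    intro l
    rw [Matrix.mul_apply, ← sum_choose_coeff _ a i b i.2]
    apply Finset.sum_congr rfl
    intro k _
    rw [carlitz_eq_coeff]
    rfl
  have h2 : ∑ l : Fin b, (X : ℤ[X]) ^ (l : ℕ) * (((j : ℕ).choose l : ℕ) : ℤ[X])
      = (X + 1) ^ (j : ℕ) := by
    rw [add_pow, Fin.sum_univ_eq_sum_range (fun l => (X : ℤ[X]) ^ l * (((j : ℕ).choose l : ℕ) : ℤ[X])) b]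
    symm
    simp only [one_pow, mul_one]
    apply Finset.sum_subset
    · intro x hx
      rw [Finset.mem_range] at hx ⊢; omega
    · intro x _ hx
      rw [Finset.mem_range] at hx
      rw [Nat.choose_eq_zero_of_lt (by omega)]; simp
  have h3 : ∑ l : Fin b, (pascal b * carlitz a b c) i l * (pascal b).transpose l j
      = ((X + 1) ^ (i : ℕ) * (X + 1) ^ (a + c) * (X + 1) ^ (j : ℕ) : ℤ[X]).coeff (a + i) := by
    rw [← h2, Finset.mul_sum, finsetSum_coeff]
    apply Finset.sum_congr rfl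
    intro l _
    rw [h1]
    have e : (X + 1) ^ (i : ℕ) * (X + 1) ^ (a + c) * ((X : ℤ[X]) ^ (l : ℕ) * (((j : ℕ).choose l : ℕ) : ℤ[X]))
      = (X + 1) ^ (i : ℕ) * ((X + 1) ^ (a + c) * X ^ (l : ℕ)) * C (((j : ℕ).choose l : ℕ) : ℤ) := by
      simp only [map_natCast]; ring
    rw [e, coeff_mul_C]
    rfl
  rw [h3, ← pow_add, ← pow_add, coeff_X_add_one_pow]
  simp only [Matrix.of_apply]
  congr 2
  omega

theorem det_carlitz_eq (a b c : ℕ) : (carlitz a b c).det
    = (Matrix.of fun i j : Fin b => (((a + c + i + j).choose (a + i) : ℕ) : ℤ)).det := by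
  rw [← pascal_mul, Matrix.det_mul, Matrix.det_mul, Matrix.det_transpose, det_pascal]
  ring

theorem det_factorial (n b : ℕ) :
    (Matrix.of fun i j : Fin b => (((n + i + j).factorial : ℕ) : ℤ)).det
      = (∏ i : Fin b, (((n + i).factorial : ℕ) : ℤ)) * ∏ i : Fin b, (((i : ℕ).factorial : ℕ) : ℤ) := by
  rcases b with _ | b
  · simp
  have h1 : (Matrix.of fun i j : Fin (b + 1) => (((n + i + j).factorial : ℕ) : ℤ))
      = Matrix.of fun i j : Fin (b + 1) => (((n + i).factorial : ℕ) : ℤ) *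
        (Matrix.of (fun i j : Fin (b + 1) =>
          ((fun j : Fin (b + 1) => ascPochhammer ℤ (j : ℕ)) j).eval
            ((fun i : Fin (b + 1) => ((i : ℕ) : ℤ) + (n + 1 : ℤ)) i))) i j := by
    ext i j
    simp only [Matrix.of_apply]
    have e : ((i : ℕ) : ℤ) + ((n : ℤ) + 1) = ((n + i + 1 : ℕ) : ℤ) := by push_cast; ring
    rw [e, ← ascPochhammer_eval_cast, ascPochhammer_nat_eq_ascFactorial,
      ← Nat.factorial_mul_ascFactorial]
    push_cast
    rfl
  rw [h1, Matrix.det_mul_column]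
  congr 1
  rw [← Matrix.det_eval_matrixOfPolynomials_eq_det_vandermonde
    (fun i : Fin (b + 1) => ((i : ℕ) : ℤ) + (n + 1 : ℤ)) (fun j => ascPochhammer ℤ (j : ℕ))
    (fun j => ascPochhammer_natDegree _ _) (fun j => monic_ascPochhammer _ _),
    Matrix.det_vandermonde_add, Matrix.det_vandermonde_id_eq_superFactorial,
    ← Nat.prod_range_succ_factorial]
  rw [Fin.prod_univ_eq_prod_range (fun i => ((i.factorial : ℕ) : ℤ)) (b + 1)]
  push_cast
  rfl

theorem det_carlitz (a b c : ℕ) :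
    (∏ i : Fin b, (((a + i).factorial : ℕ) : ℤ)) * (carlitz a b c).det *
      (∏ i : Fin b, (((c + i).factorial : ℕ) : ℤ))
      = (∏ i : Fin b, (((a + c + i).factorial : ℕ) : ℤ)) *
        ∏ i : Fin b, (((i : ℕ).factorial : ℕ) : ℤ) := by
  rw [← det_factorial, det_carlitz_eq, ← Matrix.det_mul_column]
  have h : ∀ (M : Matrix (Fin b) (Fin b) ℤ) (v : Fin b → ℤ),
      M.det * ∏ i, v i = (Matrix.of fun i j => v j * M i j).det := by
    intro M v
    rw [Matrix.det_mul_row]; ring
  rw [h]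
  congr 1
  ext i j
  simp only [Matrix.of_apply]
  have h1 := Nat.choose_mul_factorial_mul_factorial (n := a + c + i + j) (k := a + i) (by omega)
  have e : a + c + i + j - (a + i) = c + j := by omega
  rw [e] at h1
  rw [← h1]
  push_cast
  ring

end CK
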