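import Pool.Agent.Helper472.CK.Theta
import Pool.Agent.Helper472.CK.Defs

open Polynomial

namespace CK

theorem even_arith (m a b c x y z α β γ κ : ℕ) (ha : x + α = a) (hb : y + β = b) (hc : z + γ = c)
    (hα : α < m) (hβ : β < m) (hγ : γ < m)
    (hκ : κ = min (α + β + γ - m) (min α (min β (min γ (min (m - α) (min (m - β) (min (m - γ)
      (2 * m - (α + β + γ))))))))) (hpos : 0 < κ) :
    x + y + z + m + (a + b - (x + y + m)) + (a + c - (x + z + m))
      + (b + c - (y + z + m)) ≤ a + b + c - κ := by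
  omega

theorem even_syz (p s l : ℕ) [hp : Fact p.Prime] (hs : 1 ≤ s) (a b c : ℕ)
    (hκ : 0 < mult (p ^ s) a b c) (hD : Deep p l (a / p ^ s) (b / p ^ s) (c / p ^ s)) :
    HasSyz p l (a + b) (b + c) (a + c) (a + b + c - mult (p ^ s) a b c) := by
  obtain ⟨F1', V', θ', hF'⟩ := odd_exists (a / p ^ s) (b / p ^ s) (c / p ^ s)
  have hθ' := theta_of_deep p l _ _ _ hD F1' V' θ' hF'
  have hc := center_syz p s l hs _ _ _ F1' V' θ' hF' hθ'
  apply hc.transfer
  have ha := Nat.div_add_mod a (p ^ s)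
  have hb := Nat.div_add_mod b (p ^ s)
  have hc := Nat.div_add_mod c (p ^ s)
  have hpos : 0 < p ^ s := pow_pos hp.out.pos _
  have ha' := Nat.mod_lt a hpos
  have hb' := Nat.mod_lt b hpos
  have hc' := Nat.mod_lt c hpos
  simp only [Nat.mul_add, Nat.mul_one]
  exact even_arith _ _ _ _ _ _ _ _ _ _ _ ha hb hc ha' hb' hc' rfl hκ

theorem deep_arith (m P w σ : ℕ) (hm : 0 < m) (hP : 0 < P) (h1 : m < σ) (h2 : σ < 2 * m)
    (h3 : m * P < σ + m * w) (h4 : σ + m * w < 2 * (m * P)) : P - 1 ≤ w ∧ w + 2 ≤ 2 * P := by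
  constructor
  · by_contra hcon
    have h5 : w + 2 ≤ P := by omega
    have h6 : m * (w + 2) ≤ m * P := Nat.mul_le_mul_left _ h5
    rw [Nat.mul_add] at h6
    omega
  · by_contra hcon
    have h5 : 2 * P ≤ w + 1 := by omega
    have h6 : m * (2 * P) ≤ m * (w + 1) := Nat.mul_le_mul_left _ h5
    have e : m * (2 * P) = 2 * (m * P) := by ring
    rw [Nat.mul_add, e] at h6
    omega

theorem mult_pos_iff {m a b c : ℕ} (h : 0 < mult m a b c) :
    m < a % m + b % m + c % m ∧ a % m + b % m + c % m < 2 * m := by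
  unfold mult at h
  simp only [lt_min_iff] at h
  obtain ⟨h1, -, -, -, -, -, -, h2⟩ := h
  omega

theorem deep_of_scales (p : ℕ) [hp : Fact p.Prime] (a b c : ℕ) : ∀ (l s : ℕ) (T : Finset ℕ),
    T.card = l → (∀ t ∈ T, s < t ∧ 0 < mult (p ^ t) a b c) → 0 < mult (p ^ s) a b c →
    Deep p l (a / p ^ s) (b / p ^ s) (c / p ^ s) := by
  intro l
  induction l with
  | zero => intro s T _ _ _; trivial
  | succ l ih =>
    intro s T hT hall hs
    have hne : T.Nonempty := by rw [← Finset.card_pos]; omega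
    set t := T.min' hne with ht
    have htT : t ∈ T := T.min'_mem hne
    obtain ⟨hst, hft⟩ := hall t htT
    have hpow : p ^ t = p ^ s * p ^ (t - s) := by rw [← pow_add]; congr 1; omega
    have hmpos : 0 < p ^ s := pow_pos hp.out.pos _
    have hPpos : 0 < p ^ (t - s) := pow_pos hp.out.pos _
    obtain ⟨g1, g2⟩ := mult_pos_iff hs
    obtain ⟨g3, g4⟩ := mult_pos_iff hft
    rw [hpow] at g3 g4
    simp only [Nat.mod_mul] at g3 g4
    have key := deep_arith (p ^ s) (p ^ (t - s))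
      (a / p ^ s % p ^ (t - s) + b / p ^ s % p ^ (t - s) + c / p ^ s % p ^ (t - s))
      (a % p ^ s + b % p ^ s + c % p ^ s) hmpos hPpos g1 g2
      (by rw [Nat.mul_add, Nat.mul_add]; omega) (by rw [Nat.mul_add, Nat.mul_add]; omega)
    refine ⟨t - s, by omega, key.1, key.2, ?_⟩
    rw [Nat.div_div_eq_div_mul, Nat.div_div_eq_div_mul, Nat.div_div_eq_div_mul, ← hpow]
    apply ih t (T.erase t)
    · rw [Finset.card_erase_of_mem htT]; omega
    · intro t' ht'
      rw [Finset.mem_erase] at ht'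
      refine ⟨?_, (hall t' ht'.2).2⟩
      have := T.min'_le t' ht'.2
      omega
    · exact hft

theorem syz_of_expo (p : ℕ) [hp : Fact p.Prime] (a b c j l : ℕ) (hj : 1 ≤ j)
    (hl : expo a b c p j = l + 1) : ∃ κ, j ≤ κ ∧ κ ≤ a ∧ κ ≤ b ∧ κ ≤ c ∧
      HasSyz p l (a + b) (b + c) (a + c) (a + b + c - κ) := by
  unfold expo at hl
  set T := (Finset.Icc 1 (a + b + c)).filter fun s => j ≤ mult (p ^ s) a b c with hT
  have hne : T.Nonempty := by rw [← Finset.card_pos]; omega
  set s := T.min' hne with hs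
  have hsT : s ∈ T := T.min'_mem hne
  have hsT' := hsT
  rw [hT, Finset.mem_filter, Finset.mem_Icc] at hsT'
  have hfs : 0 < mult (p ^ s) a b c := by omega
  have hm : mult (p ^ s) a b c ≤ a ∧ mult (p ^ s) a b c ≤ b ∧ mult (p ^ s) a b c ≤ c := by
    have h1 := Nat.mod_le a (p ^ s)
    have h2 := Nat.mod_le b (p ^ s)
    have h3 := Nat.mod_le c (p ^ s)
    unfold mult
    refine ⟨?_, ?_, ?_⟩
    · exact (min_le_right _ _).trans ((min_le_left _ _).trans h1)
    · exact (min_le_right _ _).trans ((min_le_right _ _).trans ((min_le_left _ _).trans h2))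
    · exact (min_le_right _ _).trans ((min_le_right _ _).trans
        ((min_le_right _ _).trans ((min_le_left _ _).trans h3)))
  refine ⟨mult (p ^ s) a b c, hsT'.2, hm.1, hm.2.1, hm.2.2, ?_⟩
  apply even_syz p s l hsT'.1.1 a b c hfs
  apply deep_of_scales p a b c l s (T.erase s)
  · rw [Finset.card_erase_of_mem hsT]; omega
  · intro t ht
    rw [Finset.mem_erase] at ht
    have h1 := T.min'_le t ht.2
    have h2 := ht.2
    rw [hT, Finset.mem_filter] at h2
    constructor <;> omega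
  · exact hfs

/-- The kernel vectors. -/
theorem kernel_poly (p : ℕ) [hp : Fact p.Prime] (a b c j l : ℕ) (hj : 1 ≤ j)
    (hl : expo a b c p j = l + 1) : ∃ R : (ZMod (p ^ (l + 1)))[X], red p l R ≠ 0 ∧
      R.natDegree + j ≤ b ∧ ∀ k < j, ∀ n, a ≤ n → n < a + b →
        ((X + 1) ^ (a + c) * (X ^ k * R)).coeff n = 0 := by
  obtain ⟨κ, hκ, hκa, hκb, hκc, G1, R, h1, hR, hd1, hd2, -⟩ := syz_of_expo p a b c j l hj hl
  have hp1 : (1 : ℕ) < p ^ (l + 1) := Nat.one_lt_pow (Nat.succ_ne_zero l) hp.out.one_lt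
  have : Fact (1 < p ^ (l + 1)) := ⟨hp1⟩
  have : Nontrivial (ZMod (p ^ (l + 1))) := ZMod.nontrivial _
  have hR0 : R ≠ 0 := by rintro rfl; exact hR (map_zero _)
  refine ⟨R, hR, ?_, ?_⟩
  · have hm : ((X + 1 : (ZMod (p ^ (l + 1)))[X]) ^ (a + c)).Monic := X_add_one_monic.pow _
    have h2 := hm.natDegree_mul' hR0
    rw [natDegree_X_add_one_pow] at h2
    have h3 : ((X + 1) ^ (a + c) * R).natDegree ≤ a + b + c - κ := by
      have e : (X + 1) ^ (a + c) * R = (G1 + (X + 1) ^ (a + c) * R) - G1 := by ring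
      rw [e]
      refine (natDegree_sub_le _ _).trans ?_
      rw [max_le_iff]; constructor <;> omega
    omega
  · intro k hk n hn1 hn2
    have e : (X + 1) ^ (a + c) * (X ^ k * R)
        = X ^ k * (G1 + (X + 1) ^ (a + c) * R) - X ^ k * G1 := by ring
    rw [e, coeff_sub]
    have z1 : (X ^ k * (G1 + (X + 1) ^ (a + c) * R)).coeff n = 0 := by
      apply coeff_eq_zero_of_natDegree_lt
      refine lt_of_le_of_lt natDegree_mul_le ?_
      rw [natDegree_X_pow]
      omega
    have z2 : (X ^ k * G1).coeff n = 0 := by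
      have h3 : X ^ (a + b) ∣ X ^ k * G1 := Dvd.dvd.mul_left h1 _
      exact (X_pow_dvd_iff.1 h3) n hn2
    rw [z1, z2, sub_zero]

end CK
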