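import Pool.Agent.Helper472.CK.Frob

open Polynomial

namespace CK

/-- there is a nonzero `V` of degree `≤ b'` such that `(X+1)^w V` has no terms in degrees
`a'+1, …, a'+b'`. -/
theorem exists_V0 (a' b' w : ℕ) : ∃ V : ℤ[X], V ≠ 0 ∧ V.natDegree ≤ b' ∧
    ∀ n, a' < n → n ≤ a' + b' → ((X + 1) ^ w * V).coeff n = 0 := by
  let M : Matrix (Fin (b' + 1)) (Fin (b' + 1)) ℤ := Matrix.of fun i j =>
    if (i : ℕ) = 0 then 0 else (((X + 1) ^ w * X ^ (j : ℕ) : ℤ[X])).coeff (a' + i)
  have hdet : M.det = 0 := by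
    apply Matrix.det_eq_zero_of_row_eq_zero (0 : Fin (b' + 1))
    intro j
    simp [M]
  obtain ⟨v, hv0, hv⟩ := Matrix.exists_mulVec_eq_zero_iff.2 hdet
  refine ⟨∑ j : Fin (b' + 1), C (v j) * X ^ (j : ℕ), ?_, ?_, ?_⟩
  · intro h
    apply hv0
    funext j
    have h1 := congrArg (fun q => q.coeff (j : ℕ)) h
    simp only [finsetSum_coeff, coeff_C_mul, coeff_X_pow, coeff_zero] at h1
    rw [Finset.sum_eq_single j] at h1
    · simpa using h1
    · intro i _ hij
      have : (j : ℕ) ≠ i := fun h => hij (Fin.ext h.symm)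
      simp [this]
    · simp
  · apply natDegree_sum_le_of_forall_le
    intro j _
    refine (natDegree_C_mul_X_pow_le _ _).trans ?_
    omega
  · intro n hn1 hn2
    have h1 := congrFun hv ⟨n - a', by omega⟩
    rw [Matrix.mulVec, dotProduct] at h1
    rw [Finset.mul_sum, finsetSum_coeff]
    simp only [Pi.zero_apply] at h1
    rw [← h1]
    apply Finset.sum_congr rfl
    intro j _
    have h2 : n - a' ≠ 0 := by omega
    have h3 : a' + (n - a') = n := by omega
    simp only [M, Matrix.of_apply, h2, if_false, h3]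
    have e : (X + 1) ^ w * (C (v j) * X ^ (j : ℕ)) = C (v j) * ((X + 1) ^ w * X ^ (j : ℕ)) := by ring
    rw [e, coeff_C_mul, mul_comm]

theorem exists_V (a' b' w : ℕ) : ∃ V : ℤ[X], V.IsPrimitive ∧ V.natDegree ≤ b' ∧
    ∀ n, a' < n → n ≤ a' + b' → ((X + 1) ^ w * V).coeff n = 0 := by
  obtain ⟨V0, h0, h1, h2⟩ := exists_V0 a' b' w
  refine ⟨V0.primPart, isPrimitive_primPart V0, by rw [natDegree_primPart]; exact h1, ?_⟩
  intro n hn1 hn2
  have h3 := h2 n hn1 hn2
  have e : (X + 1) ^ w * V0 = C V0.content * ((X + 1) ^ w * V0.primPart) := by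
    conv_lhs => rw [eq_C_content_mul_primPart V0]
    ring
  rw [e, coeff_C_mul] at h3
  rcases mul_eq_zero.1 h3 with h4 | h4
  · exact absurd (content_eq_zero_iff.1 h4) h0
  · exact h4

theorem primitive_not_dvd (p : ℕ) [hp : Fact p.Prime] {V : ℤ[X]} (hV : V.IsPrimitive) :
    ¬ (p : ℤ[X]) ∣ V := by
  intro h
  have e : (p : ℤ[X]) = C (p : ℤ) := by simp
  rw [e] at h
  have := hV _ h
  exact (Nat.prime_iff_prime_int.1 hp.out).not_isUnit this

theorem natDegree_X_add_one : (X + 1 : ℤ[X]).natDegree = 1 := by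
  have := natDegree_X_add_C (1 : ℤ); simpa using this

theorem pow_dvd_derivative {S : Type*} [CommRing S] (g K : S[X]) (n : ℕ) :
    g ^ n ∣ derivative (g ^ (n + 1) * K) := by
  rw [derivative_mul, derivative_pow]
  refine ⟨C ((n + 1 : ℕ) : S) * derivative g * K + g * derivative K, ?_⟩
  rw [Nat.add_sub_cancel]
  ring

theorem wr_sub {S : Type*} [CommRing S] (F L : S[X]) :
    derivative F * (L - F) - F * derivative (L - F) = derivative F * L - F * derivative L := by
  rw [derivative_sub]; ring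

/-- The exact syzygy for odd type `(a', b', c')`. -/
theorem odd_exists (a' b' c' : ℕ) : ∃ (F1 V : ℤ[X]) (θ : ℤ), X ^ (a' + b' + 1) ∣ F1 ∧
    V.IsPrimitive ∧ F1.natDegree ≤ a' + b' + c' + 1 ∧
    (F1 + (X + 1) ^ (a' + c' + 1) * V).natDegree ≤ a' ∧
    derivative F1 * ((X + 1) ^ (a' + c' + 1) * V) - F1 * derivative ((X + 1) ^ (a' + c' + 1) * V)
      = C θ * (X ^ (a' + b') * (X + 1) ^ (a' + c')) := by
  obtain ⟨V, hVp, hVd, hVc⟩ := exists_V a' b' (a' + c' + 1)
  set P := (X + 1) ^ (a' + c' + 1) * V with hP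
  set L : ℤ[X] := ∑ n ∈ Finset.range (a' + 1), monomial n (P.coeff n) with hL
  have hLc : ∀ n, L.coeff n = if n < a' + 1 then P.coeff n else 0 := by
    intro n
    rw [hL, finsetSum_coeff]
    simp only [coeff_monomial]
    rw [Finset.sum_ite_eq']
    simp
  have hLd : L.natDegree ≤ a' := by
    rw [natDegree_le_iff_coeff_eq_zero]
    intro N hN
    rw [hLc, if_neg (by omega)]
  have hPd : P.natDegree ≤ a' + b' + c' + 1 := by
    rw [hP]
    refine natDegree_mul_le.trans ?_
    rw [X_add_one_monic.natDegree_pow, natDegree_X_add_one]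
    omega
  have hF1 : X ^ (a' + b' + 1) ∣ L - P := by
    rw [X_pow_dvd_iff]
    intro d hd
    rw [coeff_sub, hLc]
    split_ifs with h
    · ring
    · rw [hVc d (by omega) (by omega)]; ring
  have hF1d : (L - P).natDegree ≤ a' + b' + c' + 1 := by
    refine (natDegree_sub_le _ _).trans ?_
    rw [max_le_iff]; constructor <;> omega
  have hsum : (L - P) + P = L := by ring
  set F1 := L - P with hF1def
  have hWL : derivative F1 * P - F1 * derivative P = derivative F1 * L - F1 * derivative L := by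
    have : P = L - F1 := by rw [hF1def]; ring
    have h2 := wr_sub F1 L
    rw [← this] at h2
    exact h2
  set W := derivative F1 * P - F1 * derivative P with hW
  have hWd : W.natDegree ≤ (a' + b') + (a' + c') := by
    rw [hWL]
    refine (natDegree_sub_le _ _).trans ?_
    rw [max_le_iff]
    constructor
    · refine natDegree_mul_le.trans ?_
      have h1 := natDegree_derivative_le F1
      omega
    · rcases Nat.eq_zero_or_pos a' with h0 | h0
      · have : L = C (L.coeff 0) := eq_C_of_natDegree_eq_zero (by omega)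
        rw [this]; simp
      · refine natDegree_mul_le.trans ?_
        have h1 := natDegree_derivative_le L
        omega
  have hd1 : X ^ (a' + b') ∣ W := by
    obtain ⟨K, hK⟩ := hF1
    rw [hW]
    apply dvd_sub
    · apply Dvd.dvd.mul_right
      rw [hK]; exact pow_dvd_derivative _ _ _
    · apply Dvd.dvd.mul_right
      rw [hK, pow_succ, mul_assoc]; exact Dvd.intro _ rfl
  have hd2 : (X + 1) ^ (a' + c') ∣ W := by
    rw [hW]
    apply dvd_sub
    · apply Dvd.dvd.mul_left
      rw [hP, pow_succ, mul_assoc]; exact Dvd.intro _ rfl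
    · apply Dvd.dvd.mul_left
      rw [hP]; exact pow_dvd_derivative _ _ _
  obtain ⟨K, hK⟩ := (isCoprime_X_pow (S := ℤ) (a' + b') (a' + c')).mul_dvd hd1 hd2
  have hmon : ((X : ℤ[X]) ^ (a' + b') * (X + 1) ^ (a' + c')).Monic :=
    (monic_X_pow _).mul (X_add_one_monic.pow _)
  have hmd : ((X : ℤ[X]) ^ (a' + b') * (X + 1) ^ (a' + c')).natDegree
      = (a' + b') + (a' + c') := by
    rw [(monic_X_pow _).natDegree_mul (X_add_one_monic.pow _), natDegree_X_pow,
      X_add_one_monic.natDegree_pow, natDegree_X_add_one, mul_one]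
  have hK0 : K.natDegree = 0 := by
    by_cases hKz : K = 0
    · rw [hKz]; simp
    · have := hmon.natDegree_mul' hKz
      rw [← hK] at this
      omega
  refine ⟨F1, V, K.coeff 0, hF1, hVp, hF1d, by rw [hsum]; exact hLd, ?_⟩
  rw [← hP, ← hW, hK]
  conv_lhs => rw [eq_C_of_natDegree_eq_zero hK0]
  ring

end CK
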