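import Mathlib

open Polynomial

namespace CK

theorem hensel (p : ℕ) (f g U0 : ℤ[X]) (hg : g.Monic)
    (h0 : (p : ℤ[X]) ∣ f - g * U0) (cop : ∃ A B : ℤ[X], (p : ℤ[X]) ∣ A * g + B * U0 - 1) (n : ℕ) :
    ∃ D U : ℤ[X], D.Monic ∧ D.natDegree = g.natDegree ∧ (p : ℤ[X]) ^ (n + 1) ∣ f - D * U ∧
      (p : ℤ[X]) ∣ D - g ∧ (p : ℤ[X]) ∣ U - U0 := by
  obtain ⟨A, B, hAB⟩ := cop
  induction n with
  | zero => exact ⟨g, U0, hg, rfl, by simpa using h0, by simp, by simp⟩
  | succ n ih =>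
    obtain ⟨D, U, hD, hdeg, hf, hDg, hU⟩ := ih
    obtain ⟨e, he⟩ := hf
    obtain ⟨x, hx⟩ := hAB
    obtain ⟨y, hy⟩ := hDg
    obtain ⟨z, hz⟩ := hU
    set δ := (e * B) %ₘ g with hδ
    set K := (e * B) /ₘ g with hK
    have hdiv : δ + g * K = e * B := modByMonic_add_div (e * B) g
    set υ := e * A + K * U0 with hυ
    have hgd : δ.degree < D.degree := by
      have h1 := degree_modByMonic_lt (e * B) hg
      rw [← hδ] at h1
      have : D.degree = g.degree := by
        rw [degree_eq_natDegree hD.ne_zero, degree_eq_natDegree hg.ne_zero, hdeg]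
      rw [this]; exact h1
    have hlt : ((p : ℤ[X]) ^ (n + 1) * δ).degree < D.degree := by
      have e1 : (p : ℤ[X]) ^ (n + 1) = C ((p : ℤ) ^ (n + 1)) := by simp
      rw [e1, ← smul_eq_C_mul]
      exact lt_of_le_of_lt (degree_smul_le _ _) hgd
    refine ⟨D + (p : ℤ[X]) ^ (n + 1) * δ, U + (p : ℤ[X]) ^ (n + 1) * υ, ?_, ?_, ?_, ?_, ?_⟩
    · exact hD.add_of_left hlt
    · rw [natDegree_add_eq_left_of_degree_lt hlt, hdeg]
    · -- main congruence
      have e2 : e - δ * U - D * υ = (p : ℤ[X]) * (-(x * e) - δ * z - y * υ) := by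
        have hδ' : δ = e * B - g * K := by rw [← hdiv]; ring
        have hU' : U = U0 + p * z := by rw [← hz]; ring
        have hD' : D = g + p * y := by rw [← hy]; ring
        have hx' : A * g = 1 - B * U0 + p * x := by rw [← hx]; ring
        calc e - δ * U - D * υ = (e - δ * U0 - g * υ) - δ * (p * z) - (p * y) * υ := by
              rw [hU', hD']; ring
          _ = (e - e * B * U0 - e * (A * g)) - δ * (p * z) - (p * y) * υ := by
              rw [hυ, hδ']; ring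
          _ = _ := by rw [hx']; ring
      refine ⟨(-(x * e) - δ * z - y * υ) - (p : ℤ[X]) ^ n * (δ * υ), ?_⟩
      calc f - (D + (p : ℤ[X]) ^ (n + 1) * δ) * (U + (p : ℤ[X]) ^ (n + 1) * υ)
          = (f - D * U) - (p : ℤ[X]) ^ (n + 1) * (δ * U + D * υ)
            - (p : ℤ[X]) ^ (n + 1) * (p : ℤ[X]) ^ (n + 1) * (δ * υ) := by ring
        _ = (p : ℤ[X]) ^ (n + 1) * (e - δ * U - D * υ)
            - (p : ℤ[X]) ^ (n + 1) * (p : ℤ[X]) ^ (n + 1) * (δ * υ) := by rw [he]; ring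
        _ = _ := by rw [e2]; ring
    · refine ⟨y + (p : ℤ[X]) ^ n * δ, ?_⟩
      have : D = g + p * y := by rw [← hy]; ring
      rw [this]; ring
    · refine ⟨z + (p : ℤ[X]) ^ n * υ, ?_⟩
      have : U = U0 + p * z := by rw [← hz]; ring
      rw [this]; ring

end CK
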