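import Mathlib

open Polynomial

namespace CK

/-- reduction `ℤ[X] → (ℤ/m)[X]` -/
noncomputable def toS (m : ℕ) : ℤ[X] →+* (ZMod m)[X] := mapRingHom (Int.castRingHom (ZMod m))

/-- reduction `(ℤ/p^(n+1))[X] → (ℤ/p)[X]` -/
noncomputable def red (p n : ℕ) : (ZMod (p ^ (n + 1)))[X] →+* (ZMod p)[X] :=
  mapRingHom (ZMod.castHom (dvd_pow_self p (Nat.succ_ne_zero n)) (ZMod p))

theorem toS_eq_zero_iff (m : ℕ) (F : ℤ[X]) : toS m F = 0 ↔ (m : ℤ[X]) ∣ F := by
  have e : (m : ℤ[X]) = C (m : ℤ) := by simp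
  rw [e, C_dvd_iff_dvd_coeff, Polynomial.ext_iff]
  refine forall_congr' fun k => ?_
  simp only [toS, coe_mapRingHom, coeff_map, coeff_zero, eq_intCast]
  exact ZMod.intCast_zmod_eq_zero_iff_dvd _ _

theorem toS_eq_iff (m : ℕ) (F G : ℤ[X]) : toS m F = toS m G ↔ (m : ℤ[X]) ∣ F - G := by
  rw [← toS_eq_zero_iff, map_sub, sub_eq_zero]

theorem red_toS (p n : ℕ) (F : ℤ[X]) : red p n (toS (p ^ (n + 1)) F) = toS p F := by
  ext k
  simp [red, toS]

theorem toS_X (m : ℕ) : toS m X = X := by simp [toS]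

theorem toS_natDegree_le (m : ℕ) (F : ℤ[X]) : (toS m F).natDegree ≤ F.natDegree := by
  simp only [toS, coe_mapRingHom]; exact natDegree_map_le

theorem toS_monic (m : ℕ) {F : ℤ[X]} (h : F.Monic) : (toS m F).Monic := by
  simp only [toS, coe_mapRingHom]; exact h.map _

theorem derivative_toS (m : ℕ) (F : ℤ[X]) : derivative (toS m F) = toS m (derivative F) := by
  simp only [toS, coe_mapRingHom]; exact derivative_map _ _

theorem cast_eq_zero_isNilpotent (p n : ℕ) (x : ZMod (p ^ (n + 1)))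
    (h : ZMod.castHom (dvd_pow_self p (Nat.succ_ne_zero n)) (ZMod p) x = 0) : IsNilpotent x := by
  obtain ⟨z, rfl⟩ := ZMod.intCast_surjective x
  rw [map_intCast, ZMod.intCast_zmod_eq_zero_iff_dvd] at h
  obtain ⟨d, rfl⟩ := h
  refine ⟨n + 1, ?_⟩
  push_cast
  rw [mul_pow]
  have : ((p : ZMod (p ^ (n + 1))) ^ (n + 1)) = 0 := by
    exact_mod_cast ZMod.natCast_self (p ^ (n + 1))
  rw [this, zero_mul]

theorem red_eq_zero_isNilpotent (p n : ℕ) (x : (ZMod (p ^ (n + 1)))[X]) (h : red p n x = 0) :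
    IsNilpotent x := by
  rw [Polynomial.isNilpotent_iff]
  intro i
  apply cast_eq_zero_isNilpotent
  have := congrArg (fun q => q.coeff i) h
  simpa [red] using this

theorem red_surjective (p n : ℕ) : Function.Surjective (red p n) := by
  apply Polynomial.map_surjective
  exact ZMod.castHom_surjective _

theorem isCoprime_of_red (p n : ℕ) (A B : (ZMod (p ^ (n + 1)))[X])
    (h : IsCoprime (red p n A) (red p n B)) : IsCoprime A B := by
  obtain ⟨u, v, huv⟩ := h
  obtain ⟨u, rfl⟩ := red_surjective p n u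
  obtain ⟨v, rfl⟩ := red_surjective p n v
  have h1 : IsNilpotent (u * A + v * B - 1) := by
    apply red_eq_zero_isNilpotent
    rw [map_sub, map_add, map_mul, map_mul, huv, map_one, sub_self]
  have h2 : IsUnit (u * A + v * B) := by
    have := h1.isUnit_add_left_of_commute isUnit_one (Commute.one_right _)
    have e : 1 + (u * A + v * B - 1) = u * A + v * B := by ring
    rwa [e] at this
  obtain ⟨w, hw⟩ := h2
  refine ⟨↑w⁻¹ * u, ↑w⁻¹ * v, ?_⟩
  calc ↑w⁻¹ * u * A + ↑w⁻¹ * v * B = ↑w⁻¹ * (u * A + v * B) := by ring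
    _ = 1 := by rw [← hw]; simp

/-- an integer constant killing a polynomial that is nonzero mod `p` is divisible by `p^(n+1)` -/
theorem dvd_of_mul_eq_zero (p n : ℕ) [hp : Fact p.Prime] (z : ℤ) (H : (ZMod (p ^ (n + 1)))[X])
    (h : C (z : ZMod (p ^ (n + 1))) * H = 0) (hH : red p n H ≠ 0) : (p : ℤ) ^ (n + 1) ∣ z := by
  obtain ⟨k, hk⟩ : ∃ k, (red p n H).coeff k ≠ 0 := by
    by_contra hcon
    push Not at hcon
    exact hH (Polynomial.ext fun k => by simpa using hcon k)
  have h1 : (z : ZMod (p ^ (n + 1))) * H.coeff k = 0 := by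
    have := congrArg (fun q => q.coeff k) h
    simpa using this
  have h2 : IsUnit (H.coeff k) := by
    obtain ⟨y, hy⟩ := ZMod.intCast_surjective (H.coeff k)
    have h3 : (red p n H).coeff k = (y : ZMod p) := by
      simp [red, ← hy]
    rw [h3] at hk
    have h4 : ¬ (p : ℤ) ∣ y := fun h => hk ((ZMod.intCast_zmod_eq_zero_iff_dvd _ _).2 h)
    rw [← hy, ZMod.coe_int_isUnit_iff_isCoprime]
    push_cast
    apply IsCoprime.pow_left
    exact (Prime.coprime_iff_not_dvd (Nat.prime_iff_prime_int.1 hp.out)).2 h4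
  have h5 : (z : ZMod (p ^ (n + 1))) = 0 := by
    have := h2.mul_left_eq_zero.1 h1
    exact this
  have h6 := (ZMod.intCast_zmod_eq_zero_iff_dvd _ _).1 h5
  exact_mod_cast h6

end CK
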