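import Pool.Agent.Helper472.CK.Taylor2
import Pool.Agent.Helper472.CK.Hensel
import Pool.Agent.Helper472.CK.Red

open Polynomial

namespace CK

theorem natDegree_le_of_mul_eq {S : Type*} [CommRing S] {D D' G A : S[X]} (hD : D.Monic)
    (hdeg : D'.natDegree ≤ D.natDegree) (h : D * G = D' * A) : G.natDegree ≤ A.natDegree := by
  by_cases hG : G = 0
  · rw [hG]; simp
  · have h1 := hD.natDegree_mul' hG
    have h2 : (D' * A).natDegree ≤ D'.natDegree + A.natDegree := natDegree_mul_le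
    rw [h] at h1
    omega

theorem wr_mul {S : Type*} [CommRing S] (d a b : S[X]) :
    derivative (d * a) * (d * b) - (d * a) * derivative (d * b)
      = d * d * (derivative a * b - a * derivative b) := by
  rw [derivative_mul, derivative_mul]; ring

theorem X_add_one_pow_sub (p s : ℕ) [hp : Fact p.Prime] :
    (p : ℤ[X]) ∣ ((X + 1) ^ (p ^ s) - 1) - X ^ (p ^ s) := by
  rw [← toS_eq_zero_iff]
  simp only [map_sub, map_pow, map_add, map_one, toS_X]
  rw [add_pow_char_pow]
  ring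

theorem toS_comp (m : ℕ) (F T : ℤ[X]) : toS m (F.comp T) = (toS m F).comp (toS m T) := by
  simp only [toS, coe_mapRingHom]; exact map_comp _ _ _

theorem not_dvd_comp (p q : ℕ) (hq : 0 < q) [hp : Fact p.Prime] (F : ℤ[X])
    (hF : ¬ (p : ℤ[X]) ∣ F) : ¬ (p : ℤ[X]) ∣ F.comp (X ^ q) := by
  rw [← toS_eq_zero_iff] at hF ⊢
  rw [toS_comp, map_pow, toS_X, ← expand_eq_comp_X_pow, expand_eq_zero hq]
  exact hF

theorem X_add_one_prime (p : ℕ) [hp : Fact p.Prime] : Prime (X + 1 : (ZMod p)[X]) := by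
  have : (X + 1 : (ZMod p)[X]) = X - C (-1) := by simp
  rw [this]; exact prime_X_sub_C _

theorem X_add_one_monic {S : Type*} [CommRing S] : (X + 1 : S[X]).Monic := by
  have := monic_X_add_C (1 : S)
  simpa using this

theorem isCoprime_X_pow {S : Type*} [CommRing S] (m n : ℕ) :
    IsCoprime ((X : S[X]) ^ m) ((X + 1) ^ n) := by
  apply IsCoprime.pow
  exact ⟨-1, 1, by ring⟩

theorem frobenius (p s j : ℕ) [hp : Fact p.Prime] (hs : 1 ≤ s) (u w e d2 : ℕ) (F1 V : ℤ[X])
    (hu : X ^ u ∣ F1) (hV : ¬ (p : ℤ[X]) ∣ V)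
    (hW : (p : ℤ[X]) ^ j ∣
      derivative F1 * ((X + 1) ^ w * V) - F1 * derivative ((X + 1) ^ w * V))
    (hd1 : F1.natDegree ≤ e) (hd2 : (F1 + (X + 1) ^ w * V).natDegree ≤ d2) :
    ∃ G1 R : (ZMod (p ^ (j + 1)))[X], X ^ (p ^ s * u) ∣ G1 ∧ red p j R ≠ 0 ∧
      G1.natDegree ≤ p ^ s * e ∧ (G1 + (X + 1) ^ (p ^ s * w) * R).natDegree ≤ p ^ s * d2 ∧
      derivative G1 * ((X + 1) ^ (p ^ s * w) * R)
        - G1 * derivative ((X + 1) ^ (p ^ s * w) * R) = 0 := by
  set q := p ^ s with hq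
  have hq0 : 0 < q := pow_pos hp.out.pos _
  set F3 := (X + 1) ^ w * V with hF3
  set T1 : ℤ[X] := X ^ q with hT1
  set T2 : ℤ[X] := (X + 1) ^ q - 1 with hT2
  have hT : (p : ℤ[X]) ∣ T2 - T1 := X_add_one_pow_sub p s
  have hp1 : (1 : ℕ) < p ^ (j + 1) := Nat.one_lt_pow (Nat.succ_ne_zero j) hp.out.one_lt
  have : Fact (1 < p ^ (j + 1)) := ⟨hp1⟩
  have : Nontrivial (ZMod (p ^ (j + 1))) := ZMod.nontrivial _
  -- nonvanishing of F3 modulo p
  have hF3p : ¬ (p : ℤ[X]) ∣ F3 := by
    intro h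
    rcases (prime_natCast_polyZ p).dvd_or_dvd h with h1 | h1
    · have h2 := (prime_natCast_polyZ p).dvd_of_dvd_pow h1
      rw [← toS_eq_zero_iff] at h2
      simp only [map_add, map_one, toS_X] at h2
      exact (X_add_one_prime p).ne_zero h2
    · exact hV h1
  have hA3p : ¬ (p : ℤ[X]) ∣ F3.comp T1 := not_dvd_comp p q hq0 F3 hF3p
  -- Taylor
  have htay := taylor_app p F1 F3 j hW T1 T2 hT hA3p
  -- the factor at `X = -1`
  have hVT1 : ¬ (p : ℤ[X]) ∣ V.comp T1 := not_dvd_comp p q hq0 V hV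
  have hVcong : (p : ℤ[X]) ∣ V.comp T2 - V.comp T1 := by
    rw [← toS_eq_iff, toS_comp, toS_comp]
    rw [← toS_eq_iff] at hT
    rw [hT]
  have hne : toS p (V.comp T1) ≠ 0 := by
    rw [Ne, toS_eq_zero_iff]; exact hVT1
  obtain ⟨m, ubar, hfac, hnd⟩ : ∃ (m : ℕ) (ubar : (ZMod p)[X]),
      toS p (V.comp T1) = (X + 1) ^ m * ubar ∧ ¬ (X + 1) ∣ ubar := by
    obtain ⟨ubar, h1, h2⟩ := exists_eq_pow_rootMultiplicity_mul_and_not_dvd _ hne (-1)
    have hX1 : (X + 1 : (ZMod p)[X]) = X - C (-1) := by simp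
    refine ⟨rootMultiplicity (-1) (toS p (V.comp T1)), ubar, ?_, ?_⟩
    · rw [hX1]; exact h1
    · rw [hX1]; exact h2
  have hcopbar : ∀ n : ℕ, IsCoprime ((X + 1 : (ZMod p)[X]) ^ n) ubar := by
    intro n
    apply IsCoprime.pow_left
    exact ((X_add_one_prime p).irreducible.coprime_iff_not_dvd).2 hnd
  obtain ⟨U0, hU0⟩ : ∃ U0 : ℤ[X], toS p U0 = ubar := by
    apply Polynomial.map_surjective
    exact ZMod.intCast_surjective
  have hcop : ∀ n : ℕ, ∃ A B : ℤ[X], (p : ℤ[X]) ∣ A * (X + 1) ^ n + B * U0 - 1 := by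
    intro n
    obtain ⟨a, b, hab⟩ := hcopbar n
    obtain ⟨A, rfl⟩ : ∃ A : ℤ[X], toS p A = a := by
      apply Polynomial.map_surjective
      exact ZMod.intCast_surjective
    obtain ⟨B, rfl⟩ : ∃ B : ℤ[X], toS p B = b := by
      apply Polynomial.map_surjective
      exact ZMod.intCast_surjective
    refine ⟨A, B, ?_⟩
    rw [← toS_eq_zero_iff]
    simp only [map_sub, map_add, map_mul, map_pow, map_one, toS_X, hU0]
    rw [hab, sub_self]
  have hmon : ∀ n : ℕ, ((X + 1 : ℤ[X]) ^ n).Monic := fun n => X_add_one_monic.pow n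
  -- Hensel for `V.comp T2`
  obtain ⟨D2, U2, hD2m, hD2d, hD2f, hD2g, hU2⟩ := hensel p (V.comp T2) ((X + 1) ^ m) U0 (hmon m)
    (by
      rw [← toS_eq_zero_iff, map_sub, sub_eq_zero]
      rw [← toS_eq_iff] at hVcong
      rw [hVcong, hfac, map_mul, hU0]
      simp [toS_X]) (hcop m) j
  -- Hensel for `F3.comp T1`
  obtain ⟨D1, U1, hD1m, hD1d, hD1f, hD1g, hU1⟩ := hensel p (F3.comp T1) ((X + 1) ^ (q * w + m)) U0
    (hmon _)
    (by
      rw [← toS_eq_zero_iff, map_sub, sub_eq_zero]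
      have e1 : F3.comp T1 = (T1 + 1) ^ w * V.comp T1 := by
        rw [hF3]; simp
      have e2 : toS p (T1 + 1) = (X + 1) ^ q := by
        rw [← toS_eq_iff] at hT
        rw [map_add, ← hT, hT2]
        simp [toS_X]
      rw [e1, map_mul, map_pow, e2, hfac, map_mul, hU0]
      simp only [map_pow, map_add, map_one, toS_X]
      ring) (hcop _) j
  -- pass to `ZMod (p^(j+1))`
  set M := p ^ (j + 1) with hM
  have hMc : (M : ℤ[X]) = (p : ℤ[X]) ^ (j + 1) := by rw [hM]; push_cast; rfl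
  set a1 := toS M (F1.comp T1) with ha1
  set a3 := toS M (F3.comp T1) with ha3
  set b1 := toS M (F1.comp T2) with hb1
  set d1 := toS M D1 with hd1'
  set d2' := toS M D2 with hd2'
  set u1 := toS M U1 with hu1
  set u2 := toS M U2 with hu2
  have hb3 : toS M (F3.comp T2) = ((X + 1) ^ (q * w) * d2') * u2 := by
    have e1 : F3.comp T2 = (X + 1) ^ (q * w) * V.comp T2 := by
      rw [hF3, hT2]; simp [pow_mul]
    have e2 : toS M (V.comp T2) = d2' * u2 := by
      rw [hd2', hu2, ← map_mul, toS_eq_iff, hMc]; exact hD2f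
    rw [e1, map_mul, e2]
    simp only [map_pow, map_add, map_one, toS_X]
    ring
  have ha3' : a3 = d1 * u1 := by
    rw [ha3, hd1', hu1, ← map_mul, toS_eq_iff, hMc]; exact hD1f
  set d1p := (X + 1) ^ (q * w) * d2' with hd1p
  have hrel : b1 * a3 = a1 * (d1p * u2) := by
    rw [← hb3, hb1, ha3, ha1, ← map_mul, ← map_mul, toS_eq_iff, hMc]
    exact htay
  -- reductions
  have hrd1 : red p j d1 = (X + 1) ^ (q * w + m) := by
    rw [hd1', red_toS]
    rw [← toS_eq_iff] at hD1g
    rw [hD1g]; simp [toS_X]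
  have hrd2 : red p j d2' = (X + 1) ^ m := by
    rw [hd2', red_toS]
    rw [← toS_eq_iff] at hD2g
    rw [hD2g]; simp [toS_X]
  have hru1 : red p j u1 = ubar := by
    rw [hu1, red_toS]
    rw [← toS_eq_iff] at hU1
    rw [hU1, hU0]
  have hru2 : red p j u2 = ubar := by
    rw [hu2, red_toS]
    rw [← toS_eq_iff] at hU2
    rw [hU2, hU0]
  have hredX : red p j X = X := by simp [red]
  have hc12 : IsCoprime d1 u2 := by
    apply isCoprime_of_red
    rw [hrd1, hru2]; exact hcopbar _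
  have hcX : ∀ n : ℕ, IsCoprime (X ^ n) d1 := by
    intro n
    apply isCoprime_of_red
    rw [hrd1, map_pow, hredX]; exact isCoprime_X_pow _ _
  have hdvd : d1 ∣ d1p * a1 := by
    apply hc12.dvd_of_dvd_mul_right
    refine ⟨b1 * u1, ?_⟩
    calc d1p * a1 * u2 = a1 * (d1p * u2) := by ring
      _ = b1 * a3 := hrel.symm
      _ = d1 * (b1 * u1) := by rw [ha3']; ring
  obtain ⟨G1, hG1⟩ := hdvd
  have hd1mon : d1.Monic := toS_monic _ hD1m
  have hd2mon : d2'.Monic := toS_monic _ hD2m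
  have hXmon : (X + 1 : (ZMod M)[X]).Monic := X_add_one_monic
  have hd1deg : d1.natDegree = q * w + m := by
    rw [hd1']
    simp only [toS, coe_mapRingHom]
    rw [hD1m.natDegree_map, hD1d, X_add_one_monic.natDegree_pow]
    have : (X + 1 : ℤ[X]).natDegree = 1 := by
      have := natDegree_X_add_C (1 : ℤ); simpa using this
    rw [this, mul_one]
  have hd2deg : d2'.natDegree = m := by
    rw [hd2']
    simp only [toS, coe_mapRingHom]
    rw [hD2m.natDegree_map, hD2d, X_add_one_monic.natDegree_pow]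
    have : (X + 1 : ℤ[X]).natDegree = 1 := by
      have := natDegree_X_add_C (1 : ℤ); simpa using this
    rw [this, mul_one]
  have hd1pdeg : d1p.natDegree ≤ d1.natDegree := by
    rw [hd1deg, hd1p]
    refine natDegree_mul_le.trans ?_
    rw [hXmon.natDegree_pow, hd2deg]
    have : (X + 1 : (ZMod M)[X]).natDegree = 1 := by
      have := natDegree_X_add_C (1 : ZMod M); simpa using this
    rw [this, mul_one]
  have hG3 : d1 * ((X + 1) ^ (q * w) * (d2' * u1)) = d1p * a3 := by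
    rw [ha3', hd1p]; ring
  refine ⟨G1, d2' * u1, ?_, ?_, ?_, ?_, ?_⟩
  · -- divisibility by X
    apply (hcX _).dvd_of_dvd_mul_left
    rw [← hG1]
    apply Dvd.dvd.mul_left
    obtain ⟨K, hK⟩ := hu
    refine ⟨toS M (K.comp T1), ?_⟩
    rw [ha1, hK, mul_comp, map_mul]
    congr 1
    rw [hT1]
    simp [toS_X, pow_mul]
  · rw [map_mul, hrd2, hru1]
    apply mul_ne_zero
    · exact pow_ne_zero _ (X_add_one_prime p).ne_zero
    · rintro rfl
      exact hnd (dvd_zero _)
  · refine (natDegree_le_of_mul_eq hd1mon hd1pdeg hG1.symm).trans ?_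
    refine (toS_natDegree_le _ _).trans ?_
    refine natDegree_comp_le.trans ?_
    rw [hT1, natDegree_X_pow, mul_comm]
    exact Nat.mul_le_mul_left _ hd1
  · have e1 : d1 * (G1 + (X + 1) ^ (q * w) * (d2' * u1)) = d1p * (a1 + a3) := by
      rw [mul_add, hG3, ← hG1]; ring
    refine (natDegree_le_of_mul_eq hd1mon hd1pdeg e1).trans ?_
    rw [ha1, ha3, ← map_add, ← add_comp]
    refine (toS_natDegree_le _ _).trans ?_
    refine natDegree_comp_le.trans ?_
    rw [hT1, natDegree_X_pow, mul_comm]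
    exact Nat.mul_le_mul_left _ hd2
  · set G3 := (X + 1) ^ (q * w) * (d2' * u1) with hG3d
    have hw0 : derivative a1 * a3 - a1 * derivative a3 = 0 := by
      rw [ha1, ha3, derivative_toS, derivative_toS, ← map_mul, ← map_mul, ← map_sub,
        toS_eq_zero_iff, hMc, derivative_comp, derivative_comp]
      have e1 : derivative T1 * (derivative F1).comp T1 * F3.comp T1
          - F1.comp T1 * (derivative T1 * (derivative F3).comp T1)
          = (derivative F1 * F3 - F1 * derivative F3).comp T1 * derivative T1 := by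
        rw [sub_comp, mul_comp (derivative F1) F3 T1, mul_comp F1 (derivative F3) T1]; ring
      rw [e1, pow_succ]
      apply mul_dvd_mul
      · obtain ⟨K, hK⟩ := hW
        refine ⟨K.comp T1, ?_⟩
        rw [hK, mul_comp, pow_comp, natCast_comp]
      · rw [hT1, derivative_X_pow]
        apply Dvd.dvd.mul_right
        have : (p : ℤ[X]) ∣ ((q : ℕ) : ℤ[X]) := by
          rw [hq]; push_cast
          exact dvd_pow_self _ (by omega)
        simpa using this
    have e3 : d1 * d1 * (derivative G1 * G3 - G1 * derivative G3) = 0 := by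
      rw [← wr_mul, ← hG1, hG3, wr_mul, hw0, mul_zero]
    exact (hd1mon.mul hd1mon).mul_right_eq_zero_iff.1 e3

end CK
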