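import Pool.Agent.Helper472.CK.Val

namespace CK

open Finset

theorem factorization_factorial_sum (p : ℕ) [hp : Fact p.Prime] (n B : ℕ) (h : n ≤ B) :
    (n.factorial).factorization p = ∑ s ∈ Icc 1 B, n / p ^ s := by
  rw [Nat.factorization_def _ hp.out, padicValNat_factorial (b := B + 1)]
  · rfl
  · have := Nat.log_le_self p n
    omega

theorem factorization_prod_factorial (p : ℕ) [hp : Fact p.Prime] (n b B : ℕ) (h : n + b ≤ B + 1) :
    (∏ i ∈ range b, (n + i).factorial).factorization p
      = ∑ s ∈ Icc 1 B, ∑ i ∈ range b, (n + i) / p ^ s := by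
  rw [Nat.factorization_prod (fun i _ => Nat.factorial_ne_zero _), Finsupp.finsetSum_apply,
    Finset.sum_comm]
  apply Finset.sum_congr rfl
  intro i hi
  rw [Finset.mem_range] at hi
  exact factorization_factorial_sum p (n + i) B (by omega)

theorem det_natAbs (a b c : ℕ) :
    (∏ i ∈ range b, (a + i).factorial) * (carlitz a b c).det.natAbs *
      (∏ i ∈ range b, (c + i).factorial)
      = (∏ i ∈ range b, (a + c + i).factorial) * ∏ i ∈ range b, (0 + i).factorial := by
  have h := congrArg Int.natAbs (det_carlitz a b c)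
  rw [Int.natAbs_mul, Int.natAbs_mul, Int.natAbs_mul] at h
  have e : ∀ n : ℕ, (∏ i : Fin b, (((n + i).factorial : ℕ) : ℤ)).natAbs
      = ∏ i ∈ range b, (n + i).factorial := by
    intro n
    rw [Fin.prod_univ_eq_prod_range (fun i => (((n + i).factorial : ℕ) : ℤ)) b,
      ← Nat.cast_prod, Int.natAbs_natCast]
  have e0 := e 0
  have e0' : (∏ i : Fin b, (((i : ℕ).factorial : ℕ) : ℤ)).natAbs
      = ∏ i ∈ range b, (0 + i).factorial := by
    rw [← e0]; simp
  rw [e, e, e, e0'] at h
  exact h

theorem det_ne_zero (a b c : ℕ) : (carlitz a b c).det.natAbs ≠ 0 := by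
  intro h
  have h1 := det_natAbs a b c
  rw [h, mul_zero, zero_mul] at h1
  have h2 : (∏ i ∈ range b, (a + c + i).factorial) * ∏ i ∈ range b, (0 + i).factorial ≠ 0 := by
    apply mul_ne_zero <;> exact Finset.prod_ne_zero_iff.2 (fun i _ => Nat.factorial_ne_zero _)
  exact h2 h1.symm

theorem factorization_det (a b c p : ℕ) [hp : Fact p.Prime] :
    (carlitz a b c).det.natAbs.factorization p
      = ∑ s ∈ Icc 1 (a + b + c), mult (p ^ s) a b c := by
  have hne : ∀ n : ℕ, ∏ i ∈ range b, (n + i).factorial ≠ 0 := fun n =>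
    Finset.prod_ne_zero_iff.2 (fun i _ => Nat.factorial_ne_zero _)
  have h := congrArg (fun n : ℕ => n.factorization p) (det_natAbs a b c)
  beta_reduce at h
  rw [Nat.factorization_mul (mul_ne_zero (hne a) (det_ne_zero a b c)) (hne c),
    Nat.factorization_mul (hne a) (det_ne_zero a b c), Nat.factorization_mul (hne _) (hne 0)] at h
  simp only [Finsupp.add_apply] at h
  rw [factorization_prod_factorial p a b (a + b + c) (by omega),
    factorization_prod_factorial p c b (a + b + c) (by omega),
    factorization_prod_factorial p (a + c) b (a + b + c) (by omega),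
    factorization_prod_factorial p 0 b (a + b + c) (by omega)] at h
  have h2 : ∑ s ∈ Icc 1 (a + b + c), (∑ i ∈ range b, (a + c + i) / p ^ s + ∑ i ∈ range b, i / p ^ s)
      = ∑ s ∈ Icc 1 (a + b + c), (∑ i ∈ range b, (a + i) / p ^ s + ∑ i ∈ range b, (c + i) / p ^ s
        + mult (p ^ s) a b c) := by
    apply Finset.sum_congr rfl
    intro s _
    exact sum_floor _ _ _ _ (pow_pos hp.out.pos _)
  simp only [Finset.sum_add_distrib] at h2
  simp only [zero_add] at h
  omega

theorem mult_le_b (m a b c : ℕ) : mult m a b c ≤ b := by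
  unfold mult
  exact (min_le_right _ _).trans ((min_le_right _ _).trans ((min_le_left _ _).trans (Nat.mod_le _ _)))

theorem sum_mult_eq (a b c p : ℕ) :
    ∑ s ∈ Icc 1 (a + b + c), mult (p ^ s) a b c = ∑ j : Fin b, expo a b c p (j + 1) := by
  rw [Fin.sum_univ_eq_sum_range (fun j => expo a b c p (j + 1)) b]
  unfold expo
  simp only [Finset.card_filter]
  rw [Finset.sum_comm]
  apply Finset.sum_congr rfl
  intro s _
  have h := mult_le_b (p ^ s) a b c
  generalize mult (p ^ s) a b c = k at *
  rw [← Finset.card_filter]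
  have : (range b).filter (fun j => j + 1 ≤ k) = range k := by
    ext j
    simp only [Finset.mem_filter, Finset.mem_range]
    omega
  rw [this, Finset.card_range]

theorem factorization_det' (a b c p : ℕ) [hp : Fact p.Prime] :
    (carlitz a b c).det.natAbs.factorization p = ∑ j : Fin b, expo a b c p (j + 1) := by
  rw [factorization_det, sum_mult_eq]

theorem expo_antitone (a b c p : ℕ) {j k : ℕ} (h : j ≤ k) : expo a b c p k ≤ expo a b c p j := by
  unfold expo
  apply Finset.card_le_card
  intro s hs
  rw [Finset.mem_filter] at hs ⊢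
  exact ⟨hs.1, h.trans hs.2⟩

end CK
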