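import Pool.Agent.Helper472.CK.Even
import Pool.Agent.Helper472.CK.Leg

open Polynomial Module

namespace CK

/-- Smith normal form data of a nonsingular integer matrix. -/
theorem snf_exists {b : ℕ} (C : Matrix (Fin b) (Fin b) ℤ) (hdet : C.det ≠ 0) :
    ∃ (e : Basis (Fin b) ℤ (Fin b → ℤ)) (n : Fin b → ℕ), (∀ l, n l ≠ 0) ∧
      (∀ l, (n l : ℤ) • e l ∈ LinearMap.range C.mulVecLin) ∧ ∏ l, n l = C.det.natAbs ∧
      Nonempty (((Fin b → ℤ) ⧸ LinearMap.range C.mulVecLin) ≃+ ∀ l, ZMod (n l)) := by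
  set f := C.mulVecLin with hf
  set N := LinearMap.range f with hN
  have hinj : Function.Injective f := by
    rw [hf, ← LinearMap.ker_eq_bot, Matrix.ker_mulVecLin_eq_bot_iff]
    intro v hv
    exact Matrix.eq_zero_of_mulVec_eq_zero hdet hv
  let E : (Fin b → ℤ) ≃ₗ[ℤ] N := LinearEquiv.ofInjective f hinj
  have hrank : Module.finrank ℤ N = Module.finrank ℤ (Fin b → ℤ) := E.symm.finrank_eq
  have hcard := Submodule.natAbs_det_equiv N E
  have hsub : (N.subtype ∘ₗ AddMonoidHom.toIntLinearMap (E : (Fin b → ℤ) →+ N)) = f := by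
    ext x
    rfl
  rw [hsub] at hcard
  have hdetf : LinearMap.det f = C.det := by
    rw [hf, ← Matrix.toLin'_apply', LinearMap.det_toLin']
  rw [hdetf] at hcard
  let bs := Pi.basisFun ℤ (Fin b)
  let co := Submodule.smithNormalFormCoeffs bs hrank
  have hco : ∀ l, co l ≠ 0 := fun l => Submodule.smithNormalFormCoeffs_ne_zero bs hrank l
  have hq := Submodule.quotientEquivPiZMod N bs hrank
  refine ⟨Submodule.smithNormalFormTopBasis bs hrank, fun l => (co l).natAbs, ?_, ?_, ?_, ⟨hq⟩⟩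
  · intro l; exact Int.natAbs_ne_zero.2 (hco l)
  · intro l
    have h1 : co l • Submodule.smithNormalFormTopBasis bs hrank l ∈ N := by
      rw [← Submodule.smithNormalFormBotBasis_def bs hrank l]
      exact Submodule.coe_mem _
    rcases Int.natAbs_eq (co l) with h2 | h2
    · rw [h2] at h1; exact h1
    · rw [h2, neg_smul] at h1
      exact (Submodule.neg_mem_iff N).1 h1
  · rw [hcard, Nat.card_congr hq.toEquiv, Nat.card_pi]
    simp only [Nat.card_zmod]
    rfl

/-- the functional on `ℤ^b` with coefficients those of a polynomial -/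
def Phi {K : Type*} [CommRing K] (b : ℕ) (P : K[X]) : (Fin b → ℤ) →ₗ[ℤ] K where
  toFun x := ∑ i, (x i : K) * P.coeff i
  map_add' x y := by simp [add_mul, Finset.sum_add_distrib]
  map_smul' c x := by simp [Finset.mul_sum, mul_assoc]

theorem Phi_apply {K : Type*} [CommRing K] (b : ℕ) (P : K[X]) (x : Fin b → ℤ) :
    Phi b P x = ∑ i, (x i : K) * P.coeff i := rfl

theorem carlitz_symm (a b c : ℕ) (i j : Fin b) : carlitz a b c i j = carlitz c b a j i := by
  simp only [carlitz, Matrix.of_apply]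
  by_cases h1 : (j : ℕ) ≤ a + i
  · by_cases h2 : (i : ℕ) ≤ c + j
    · rw [if_pos h1, if_pos h2, add_comm c a]
      congr 1
      rw [← Nat.choose_symm (n := a + c) (k := a + i - j) (by omega)]
      congr 1
      omega
    · rw [if_pos h1, if_neg h2, Nat.choose_eq_zero_of_lt (by omega)]; simp
  · by_cases h2 : (i : ℕ) ≤ c + j
    · rw [if_neg h1, if_pos h2, Nat.choose_eq_zero_of_lt (by omega)]; simp
    · rw [if_neg h1, if_neg h2]

theorem carlitz_cast {K : Type*} [CommRing K] (a b c : ℕ) (i j : Fin b) :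
    ((carlitz a b c i j : ℤ) : K) = ((X + 1) ^ (a + c) * X ^ (j : ℕ) : K[X]).coeff (a + i) := by
  rw [coeff_mul_X_pow', coeff_X_add_one_pow]
  simp only [carlitz, Matrix.of_apply]
  split_ifs <;> simp

theorem Phi_carlitz {K : Type*} [CommRing K] (a b c : ℕ) (P : K[X]) (hP : P.natDegree < b)
    (h0 : ∀ n, c ≤ n → n < c + b → ((X + 1) ^ (c + a) * P).coeff n = 0) (v : Fin b → ℤ) :
    Phi b P ((carlitz a b c).mulVecLin v) = 0 := by
  have hcol : ∀ j : Fin b, ∑ i : Fin b, ((carlitz a b c i j : ℤ) : K) * P.coeff i = 0 := by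
    intro j
    have h1 : ((X + 1) ^ (c + a) * P).coeff (c + j) = 0 := h0 _ (by omega) (by omega)
    have h2 : P = ∑ i : Fin b, C (P.coeff i) * X ^ (i : ℕ) := by
      conv_lhs => rw [P.as_sum_range_C_mul_X_pow' hP]
      rw [Fin.sum_univ_eq_sum_range (fun i => C (P.coeff i) * X ^ i) b]
    rw [h2, Finset.mul_sum, finsetSum_coeff] at h1
    rw [← h1]
    apply Finset.sum_congr rfl
    intro i _
    rw [carlitz_symm, carlitz_cast]
    have e : (X + 1) ^ (c + a) * (C (P.coeff i) * X ^ (i : ℕ))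
        = C (P.coeff i) * ((X + 1) ^ (c + a) * X ^ (i : ℕ)) := by ring
    rw [e, coeff_C_mul, mul_comm]
  rw [Phi_apply]
  have h3 : ∀ i : Fin b, (((carlitz a b c).mulVecLin v i : ℤ) : K) * P.coeff i
      = ∑ j : Fin b, (v j : K) * (((carlitz a b c i j : ℤ) : K) * P.coeff i) := by
    intro i
    rw [Matrix.mulVecLin_apply, Matrix.mulVec, dotProduct]
    push_cast
    rw [Finset.sum_mul]
    apply Finset.sum_congr rfl
    intro j _
    ring
  rw [Finset.sum_congr rfl (fun i _ => h3 i), Finset.sum_comm]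
  apply Finset.sum_eq_zero
  intro j _
  rw [← Finset.mul_sum, hcol, mul_zero]

end CK
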