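import Pool.Agent.Helper472.CK.Grp1

open Polynomial Module

namespace CK

theorem Phi_red (p n b : ℕ) (P : (ZMod (p ^ (n + 1)))[X]) (x : Fin b → ℤ) :
    Phi b (red p n P) x
      = ZMod.castHom (dvd_pow_self p (Nat.succ_ne_zero n)) (ZMod p) (Phi b P x) := by
  rw [Phi_apply, Phi_apply, map_sum]
  apply Finset.sum_congr rfl
  intro i _
  rw [map_mul, map_intCast]
  simp [red]

theorem Phi_sum_smul {K : Type*} [CommRing K] (b j : ℕ) (c : Fin j → K) (P : Fin j → K[X])
    (x : Fin b → ℤ) : Phi b (∑ k, C (c k) * P k) x = ∑ k, c k * Phi b (P k) x := by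
  simp only [Phi_apply, finsetSum_coeff, coeff_C_mul, Finset.mul_sum]
  rw [Finset.sum_comm]
  apply Finset.sum_congr rfl
  intro k _
  apply Finset.sum_congr rfl
  intro i _
  ring

theorem Phi_eq_zero {K : Type*} [CommRing K] (b : ℕ) (P : K[X]) (hP : P.natDegree < b)
    (h : ∀ x : Fin b → ℤ, Phi b P x = 0) : P = 0 := by
  ext i
  rw [coeff_zero]
  by_cases hi : i < b
  · have h1 := h (Pi.single ⟨i, hi⟩ 1)
    rw [Phi_apply, Finset.sum_eq_single ⟨i, hi⟩] at h1
    · simpa using h1
    · intro k _ hk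
      rw [Pi.single_eq_of_ne hk]; simp
    · simp
  · exact coeff_eq_zero_of_natDegree_lt (by omega)

theorem sum_C_X_eq_zero {K : Type*} [CommRing K] (j : ℕ) (c : Fin j → K)
    (h : ∑ k : Fin j, C (c k) * X ^ (k : ℕ) = 0) : c = 0 := by
  funext k
  have h1 := congrArg (fun q => q.coeff (k : ℕ)) h
  simp only [finsetSum_coeff, coeff_C_mul, coeff_X_pow, coeff_zero] at h1
  rw [Finset.sum_eq_single k] at h1
  · simpa using h1
  · intro i _ hij
    have : (k : ℕ) ≠ i := fun h => hij (Fin.ext h.symm)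
    simp [this]
  · simp

/-- the counting lemma: at least `j` of the `n l` are divisible by `p ^ expo a b c p j`. -/
theorem count_dvd (p : ℕ) [hp : Fact p.Prime] (a b c j l : ℕ) (hj : 1 ≤ j)
    (hl : expo c b a p j = l + 1) (e : Basis (Fin b) ℤ (Fin b → ℤ)) (n : Fin b → ℕ)
    (hN : ∀ l, (n l : ℤ) • e l ∈ LinearMap.range (carlitz a b c).mulVecLin) :
    j ≤ (Finset.univ.filter fun i : Fin b => p ^ (l + 1) ∣ n i).card := by
  obtain ⟨R, hR, hRd, hker⟩ := kernel_poly p c b a j l hj hl
  have hp1 : (1 : ℕ) < p ^ (l + 1) := Nat.one_lt_pow (Nat.succ_ne_zero l) hp.out.one_lt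
  have : Fact (1 < p ^ (l + 1)) := ⟨hp1⟩
  have : Nontrivial (ZMod (p ^ (l + 1))) := ZMod.nontrivial _
  -- degree of `X^k * R`
  have hXR : ∀ k < j, (X ^ k * R).natDegree < b := by
    intro k hk
    refine lt_of_le_of_lt natDegree_mul_le ?_
    rw [natDegree_X_pow]
    omega
  -- vanishing
  have hz : ∀ k < j, ∀ i : Fin b, ¬ p ^ (l + 1) ∣ n i → Phi b (red p l (X ^ k * R)) (e i) = 0 := by
    intro k hk i hi
    obtain ⟨v, hv⟩ := hN i
    have h1 : Phi b (X ^ k * R) ((n i : ℤ) • e i) = 0 := by
      rw [← hv]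
      exact Phi_carlitz a b c _ (hXR k hk) (hker k hk) v
    rw [map_smul] at h1
    rw [Phi_red]
    by_contra hne
    set y := Phi b (X ^ k * R) (e i) with hy
    have hu : IsUnit y := by
      obtain ⟨z, hz⟩ := ZMod.intCast_surjective y
      rw [← hz] at hne ⊢
      rw [map_intCast] at hne
      have h4 : ¬ (p : ℤ) ∣ z := fun h => hne ((ZMod.intCast_zmod_eq_zero_iff_dvd _ _).2 h)
      rw [ZMod.coe_int_isUnit_iff_isCoprime]
      push_cast
      apply IsCoprime.pow_left
      exact (Prime.coprime_iff_not_dvd (Nat.prime_iff_prime_int.1 hp.out)).2 h4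
    have h5 : ((n i : ℕ) : ZMod (p ^ (l + 1))) * y = 0 := by
      have : (n i : ℤ) • y = ((n i : ℕ) : ZMod (p ^ (l + 1))) * y := by
        rw [zsmul_eq_mul]; push_cast; rfl
      rw [← this]; exact h1
    have h6 : ((n i : ℕ) : ZMod (p ^ (l + 1))) = 0 := hu.mul_left_eq_zero.1 h5
    exact hi ((ZMod.natCast_eq_zero_iff _ _).1 h6)
  -- the linear map
  let T := {i : Fin b // p ^ (l + 1) ∣ n i}
  let Λ : (Fin j → ZMod p) →ₗ[ZMod p] (T → ZMod p) :=
    { toFun := fun c i => ∑ k, c k * Phi b (red p l (X ^ (k : ℕ) * R)) (e i.1)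
      map_add' := by
        intro x y; funext i; simp [add_mul, Finset.sum_add_distrib]
      map_smul' := by
        intro x y; funext i; simp [Finset.mul_sum, mul_assoc] }
  have hΛ : Function.Injective Λ := by
    rw [injective_iff_map_eq_zero]
    intro cc hcc
    set P : (ZMod p)[X] := ∑ k : Fin j, C (cc k) * red p l (X ^ (k : ℕ) * R) with hPdef
    have hP0 : ∀ x, Phi b P x = 0 := by
      have : Phi b P = 0 := by
        apply e.ext
        intro i
        rw [hPdef, Phi_sum_smul, LinearMap.zero_apply]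
        by_cases hi : p ^ (l + 1) ∣ n i
        · exact congrFun hcc ⟨i, hi⟩
        · apply Finset.sum_eq_zero
          intro k _
          rw [hz k k.2 i hi, mul_zero]
      intro x
      rw [this]; rfl
    have hPfac : P = (∑ k : Fin j, C (cc k) * X ^ (k : ℕ)) * red p l R := by
      rw [hPdef, Finset.sum_mul]
      apply Finset.sum_congr rfl
      intro k _
      rw [map_mul, map_pow, red_X]; ring
    have hPd : P.natDegree < b := by
      rw [hPfac]
      refine lt_of_le_of_lt natDegree_mul_le ?_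
      have h1 : (∑ k : Fin j, C (cc k) * X ^ (k : ℕ)).natDegree ≤ j - 1 := by
        apply natDegree_sum_le_of_forall_le
        intro k _
        refine (natDegree_C_mul_X_pow_le _ _).trans ?_
        omega
      have h2 : (red p l R).natDegree ≤ R.natDegree := by
        simp only [red, coe_mapRingHom]; exact natDegree_map_le
      omega
    have hPz := Phi_eq_zero b P hPd hP0
    rw [hPfac] at hPz
    rcases mul_eq_zero.1 hPz with h1 | h1
    · exact sum_C_X_eq_zero j cc h1
    · exact absurd h1 hR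
  have hfin := LinearMap.finrank_le_finrank_of_injective hΛ
  rw [Module.finrank_fintype_fun_eq_card, Module.finrank_fintype_fun_eq_card, Fintype.card_fin,
    Fintype.card_subtype] at hfin
  exact hfin

end CK
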