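import Pool.Agent.Helper472.CK.Grp2

open Module

namespace CK

open Finset

theorem sort_lemma {b : ℕ} (v τ : Fin b → ℕ)
    (h1 : ∀ j : Fin b, (j : ℕ) + 1 ≤ (univ.filter fun l => τ j ≤ v l).card)
    (h2 : ∑ l, v l ≤ ∑ j, τ j) : ∃ σ : Equiv.Perm (Fin b), ∀ j, v (σ j) = τ j := by
  set σ := Tuple.sort (fun i => OrderDual.toDual (v i)) with hσ
  have hmono : ∀ i j, i ≤ j → v (σ j) ≤ v (σ i) := by
    intro i j hij
    have := Tuple.monotone_sort (fun i => OrderDual.toDual (v i)) hij
    exact this
  have hge : ∀ j, τ j ≤ v (σ j) := by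
    intro j
    by_contra hcon
    push Not at hcon
    have hsub : (univ.filter fun l => τ j ≤ v l) ⊆ (univ.filter fun k : Fin b => k < j).map
        σ.toEmbedding := by
      intro l hl
      rw [Finset.mem_filter] at hl
      rw [Finset.mem_map]
      refine ⟨σ.symm l, ?_, by simp⟩
      rw [Finset.mem_filter]
      refine ⟨Finset.mem_univ _, ?_⟩
      by_contra hge
      push Not at hge
      have h3 := hmono j (σ.symm l) hge
      rw [Equiv.apply_symm_apply] at h3
      omega
    have h3 := Finset.card_le_card hsub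
    rw [Finset.card_map] at h3
    have h4 : (univ.filter fun k : Fin b => k < j).card = j := by
      have : (univ.filter fun k : Fin b => k < j) = Finset.Iio j := by
        ext k; simp
      rw [this, Fin.card_Iio]
    have h5 := h1 j
    omega
  refine ⟨σ, ?_⟩
  have h3 : ∑ j, v (σ j) = ∑ l, v l := Equiv.sum_comp σ v
  have h4 : ∑ j, τ j = ∑ j, v (σ j) := by
    apply le_antisymm
    · exact Finset.sum_le_sum fun j _ => hge j
    · rw [h3]; exact h2
  intro j
  have h5 := (Finset.sum_eq_sum_iff_of_le (fun j _ => hge j)).1 h4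
  exact (h5 j (Finset.mem_univ j)).symm

theorem mult_symm (m a b c : ℕ) : mult m c b a = mult m a b c := by
  unfold mult
  have e : c % m + b % m + a % m = a % m + b % m + c % m := by omega
  rw [e]
  generalize a % m = x
  generalize b % m = y
  generalize c % m = z
  generalize x + y + z - m = u
  generalize 2 * m - (x + y + z) = w
  generalize m - x = x'
  generalize m - y = y'
  generalize m - z = z'
  ac_rfl

theorem expo_symm (a b c p j : ℕ) : expo c b a p j = expo a b c p j := by
  unfold expo
  have e : c + b + a = a + b + c := by omega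
  rw [e]
  congr 1
  ext s
  rw [Finset.mem_filter, Finset.mem_filter, mult_symm]

/-- For each prime, the `p`-adic valuations of the `n l` are the numbers `expo a b c p (j+1)`. -/
theorem exists_perm (p : ℕ) [hp : Fact p.Prime] (a b c : ℕ)
    (e : Basis (Fin b) ℤ (Fin b → ℤ)) (n : Fin b → ℕ) (hn : ∀ l, n l ≠ 0)
    (hN : ∀ l, (n l : ℤ) • e l ∈ LinearMap.range (carlitz a b c).mulVecLin)
    (hprod : ∏ l, n l = (carlitz a b c).det.natAbs) :
    ∃ σ : Equiv.Perm (Fin b), ∀ j : Fin b, (n (σ j)).factorization p = expo a b c p (j + 1) := by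
  apply sort_lemma (fun l => (n l).factorization p) (fun j => expo a b c p (j + 1))
  · intro j
    rcases Nat.eq_zero_or_pos (expo a b c p (j + 1)) with h0 | h0
    · have : (univ.filter fun l => expo a b c p (j + 1) ≤ (n l).factorization p) = univ := by
        rw [h0]; ext l; simp
      rw [this, Finset.card_univ, Fintype.card_fin]
      exact j.2
    · obtain ⟨l, hl⟩ : ∃ l, expo a b c p (j + 1) = l + 1 := ⟨expo a b c p (j + 1) - 1, by omega⟩
      have h1 := count_dvd p a b c (j + 1) l (by omega) (by rw [expo_symm]; exact hl) e n hN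
      rw [hl]
      refine h1.trans (le_of_eq ?_)
      congr 1
      ext i
      rw [Finset.mem_filter, Finset.mem_filter, hp.out.pow_dvd_iff_le_factorization (hn i)]
  · rw [← factorization_det' a b c p, ← hprod, Nat.factorization_prod (fun i _ => hn i),
      Finsupp.finsetSum_apply]

theorem expo_eq_zero (a b c p j : ℕ) (hp : p.Prime) (hj : 1 ≤ j) (h : a + b + c < p) :
    expo a b c p j = 0 := by
  unfold expo
  rw [Finset.card_eq_zero, Finset.filter_eq_empty_iff]
  intro s hs hcon
  rw [Finset.mem_Icc] at hs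
  have h1 : 0 < mult (p ^ s) a b c := by omega
  have h2 := (mult_pos_iff h1).1
  have h3 : p ≤ p ^ s := Nat.le_self_pow (by omega) p
  have h4 := Nat.mod_le a (p ^ s)
  have h5 := Nat.mod_le b (p ^ s)
  have h6 := Nat.mod_le c (p ^ s)
  omega

/-- the primes `≤ N` -/
abbrev PrimesLE (N : ℕ) := {p : ℕ // p ∈ (Finset.range (N + 1)).filter Nat.Prime}

theorem zmod_iso (N : ℕ) (k : PrimesLE N → ℕ) :
    Nonempty (ZMod (∏ p : PrimesLE N, (p : ℕ) ^ k p) ≃+ ∀ p : PrimesLE N, ZMod ((p : ℕ) ^ k p)) := by
  refine ⟨(ZMod.prodEquivPi (fun p : PrimesLE N => (p : ℕ) ^ k p) ?_).toAddEquiv⟩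
  intro p q hpq
  apply Nat.Coprime.pow
  have h1 := (Finset.mem_filter.1 p.2).2
  have h2 := (Finset.mem_filter.1 q.2).2
  exact (Nat.coprime_primes h1 h2).2 (fun h => hpq (Subtype.ext h))

theorem pi_perm {b : ℕ} (m : ℕ) (v τ : Fin b → ℕ) (σ : Equiv.Perm (Fin b))
    (h : ∀ j, v (σ j) = τ j) :
    Nonempty ((∀ l, ZMod (m ^ v l)) ≃+ ∀ j, ZMod (m ^ τ j)) := by
  have : τ = fun j => v (σ j) := by funext j; rw [h]
  subst this
  exact ⟨(RingEquiv.piCongrLeft' (fun l => ZMod (m ^ v l)) σ.symm).toAddEquiv⟩

/-- swapping the order of a double product -/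
def piSwap {α β : Type*} (A : α → β → Type*) [∀ i j, AddCommGroup (A i j)] :
    (∀ i, ∀ j, A i j) ≃+ (∀ j, ∀ i, A i j) where
  toFun x := fun j i => x i j
  invFun x := fun i j => x j i
  left_inv _ := rfl
  right_inv _ := rfl
  map_add' _ _ := rfl

theorem main_iso (a b c : ℕ) :
    Nonempty (((Fin b → ℤ) ⧸ LinearMap.range (carlitz a b c).mulVecLin) ≃+
      ∀ j : Fin b, ZMod (invFactor a b c (j + 1))) := by
  have hdet : (carlitz a b c).det ≠ 0 := by
    intro h
    have := det_ne_zero a b c
    rw [h] at this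
    exact this rfl
  obtain ⟨e, n, hn, hN, hprod, ⟨E0⟩⟩ := snf_exists (carlitz a b c) hdet
  have hperm : ∀ p : PrimesLE (a + b + c), ∃ σ : Equiv.Perm (Fin b), ∀ j : Fin b,
      (n (σ j)).factorization p = expo a b c p (j + 1) := by
    intro p
    haveI : Fact (p : ℕ).Prime := ⟨(Finset.mem_filter.1 p.2).2⟩
    exact exists_perm p a b c e n hn hN hprod
  -- decomposition of `n l`
  have hdec : ∀ l, n l = ∏ p : PrimesLE (a + b + c), (p : ℕ) ^ (n l).factorization p := by
    intro l
    conv_lhs => rw [← Nat.factorization_prod_pow_eq_self (hn l)]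
    rw [Finset.prod_coe_sort ((Finset.range (a + b + c + 1)).filter Nat.Prime)
      (fun p => p ^ (n l).factorization p)]
    apply Finsupp.prod_of_support_subset
    · intro p hp
      have hpp : p.Prime := by
        by_contra hnp
        rw [Finsupp.mem_support_iff] at hp
        exact hp (Nat.factorization_eq_zero_of_not_prime _ hnp)
      rw [Finset.mem_filter, Finset.mem_range]
      refine ⟨?_, hpp⟩
      by_contra hlt
      haveI : Fact p.Prime := ⟨hpp⟩
      obtain ⟨σ, hσ⟩ := exists_perm p a b c e n hn hN hprod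
      rw [Finsupp.mem_support_iff] at hp
      apply hp
      have h1 := hσ (σ.symm l)
      rw [Equiv.apply_symm_apply] at h1
      rw [h1]
      exact expo_eq_zero a b c p _ hpp (by omega) (by omega)
    · intro p _
      exact pow_zero _
  have E1 : ∀ l, Nonempty (ZMod (n l) ≃+
      ∀ p : PrimesLE (a + b + c), ZMod ((p : ℕ) ^ (n l).factorization p)) := by
    intro l
    have h1 := zmod_iso (a + b + c) (fun p => (n l).factorization p)
    rw [← hdec l] at h1
    exact h1
  have E3 : ∀ p : PrimesLE (a + b + c), Nonempty ((∀ l, ZMod ((p : ℕ) ^ (n l).factorization p)) ≃+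
      ∀ j : Fin b, ZMod ((p : ℕ) ^ expo a b c p (j + 1))) := by
    intro p
    obtain ⟨σ, hσ⟩ := hperm p
    exact pi_perm p (fun l => (n l).factorization p) (fun j => expo a b c p (j + 1)) σ hσ
  have E5 : ∀ j : Fin b, Nonempty (ZMod (invFactor a b c (j + 1)) ≃+
      ∀ p : PrimesLE (a + b + c), ZMod ((p : ℕ) ^ expo a b c p (j + 1))) := by
    intro j
    have h1 := zmod_iso (a + b + c) (fun p => expo a b c p (j + 1))
    rw [Finset.prod_coe_sort ((Finset.range (a + b + c + 1)).filter Nat.Prime)
      (fun p => p ^ expo a b c p (j + 1))] at h1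
    exact h1
  let F1 := AddEquiv.piCongrRight fun l => (E1 l).some
  let F2 := piSwap fun (l : Fin b) (p : PrimesLE (a + b + c)) =>
    ZMod ((p : ℕ) ^ (n l).factorization p)
  let F3 := AddEquiv.piCongrRight fun p => (E3 p).some
  let F4 := piSwap fun (p : PrimesLE (a + b + c)) (j : Fin b) =>
    ZMod ((p : ℕ) ^ expo a b c p (j + 1))
  let F5 := AddEquiv.piCongrRight fun j => (E5 j).some.symm
  exact ⟨E0.trans (F1.trans (F2.trans (F3.trans (F4.trans F5))))⟩

theorem invFactor_dvd (a b c : ℕ) {j k : ℕ} (h : j ≤ k) : invFactor a b c k ∣ invFactor a b c j := by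
  unfold invFactor
  apply Finset.prod_dvd_prod_of_dvd
  intro p _
  exact pow_dvd_pow _ (expo_antitone a b c p h)

end CK
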