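import Mathlib

open Polynomial

namespace CK

/-- A Wronskian of `f, g` divisible by `p^j` makes the ratio `f/g` vary slowly. -/
theorem taylor_dvd {R : Type*} [CommRing R] [IsDomain R] (p : ℕ) [hp : Fact p.Prime]
    (hpR : Prime (p : R)) (hcop : ∀ n : ℕ, (p : R) ∣ (n : R) → p ∣ n) (f g : R[X]) (j : ℕ)
    (hW : C ((p : R) ^ j) ∣ derivative f * g - f * derivative g)
    (hg : ¬ (p : R) ∣ g.coeff 0) (h : R) :
    (p : R) ^ (j + 1) ∣ (f * C (g.coeff 0) - C (f.coeff 0) * g).eval ((p : R) * h) := by
  set g0 := g.coeff 0 with hg0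
  set ψ := f * C g0 - C (f.coeff 0) * g with hψ
  have hψ0 : ψ.coeff 0 = 0 := by
    rw [hψ, coeff_sub, coeff_mul_C, coeff_C_mul, ← hg0]; ring
  have hψW : C ((p : R) ^ j) ∣ g * derivative ψ - derivative g * ψ := by
    have : g * derivative ψ - derivative g * ψ
        = C g0 * (derivative f * g - f * derivative g) := by
      rw [hψ]; simp only [derivative_sub, derivative_mul, derivative_C]; ring
    rw [this]; exact Dvd.dvd.mul_left hW _
  rw [C_dvd_iff_dvd_coeff] at hψW
  have key : ∀ k : ℕ, (p : R) ^ j ∣ (k.factorial : R) * g0 ^ k * ψ.coeff k := by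
    intro k
    induction k using Nat.strong_induction_on with
    | _ k ih =>
      rcases k with _ | k
      · rw [hψ0]; simp
      · have h1 := hψW k
        rw [coeff_sub, coeff_mul, coeff_mul] at h1
        have hmem : ((0 : ℕ), k) ∈ Finset.HasAntidiagonal.antidiagonal k := by simp
        rw [← Finset.add_sum_erase _ _ hmem] at h1
        simp only [coeff_derivative] at h1
        set S1 := ∑ x ∈ (Finset.HasAntidiagonal.antidiagonal k).erase (0, k),
          g.coeff x.1 * (ψ.coeff (x.2 + 1) * ((x.2 : R) + 1)) with hS1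
        set S2 := ∑ x ∈ Finset.HasAntidiagonal.antidiagonal k,
          g.coeff (x.1 + 1) * ((x.1 : R) + 1) * ψ.coeff x.2 with hS2
        have hT : ∀ m ≤ k, (p : R) ^ j ∣ ((k.factorial : R) * g0 ^ k) * ψ.coeff m := by
          intro m hm
          have h2 := ih m (by omega)
          obtain ⟨e, he⟩ := Nat.factorial_dvd_factorial hm
          have : ((k.factorial : R) * g0 ^ k) * ψ.coeff m
              = ((e : R) * g0 ^ (k - m)) * ((m.factorial : R) * g0 ^ m * ψ.coeff m) := by
            rw [he]; push_cast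
            have : g0 ^ k = g0 ^ (k - m) * g0 ^ m := by rw [← pow_add]; congr 1; omega
            rw [this]; ring
          rw [this]; exact Dvd.dvd.mul_left h2 _
        have hA : (p : R) ^ j ∣ ((k.factorial : R) * g0 ^ k) * S1 := by
          rw [hS1, Finset.mul_sum]
          refine Finset.dvd_sum fun x hx => ?_
          rw [Finset.mem_erase, Finset.HasAntidiagonal.mem_antidiagonal] at hx
          have hx2 : x.2 + 1 ≤ k := by
            by_contra hcon
            apply hx.1
            ext <;> simp <;> omega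
          have := hT _ hx2
          have e : (k.factorial : R) * g0 ^ k * (g.coeff x.1 * (ψ.coeff (x.2 + 1) * ((x.2 : R) + 1)))
            = (g.coeff x.1 * ((x.2 : R) + 1)) * ((k.factorial : R) * g0 ^ k * ψ.coeff (x.2 + 1)) := by
            ring
          rw [e]; exact Dvd.dvd.mul_left this _
        have hB : (p : R) ^ j ∣ ((k.factorial : R) * g0 ^ k) * S2 := by
          rw [hS2, Finset.mul_sum]
          refine Finset.dvd_sum fun x hx => ?_
          rw [Finset.HasAntidiagonal.mem_antidiagonal] at hx
          have hx2 : x.2 ≤ k := by omega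
          have := hT _ hx2
          have e : (k.factorial : R) * g0 ^ k * (g.coeff (x.1 + 1) * ((x.1 : R) + 1) * ψ.coeff x.2)
            = (g.coeff (x.1 + 1) * ((x.1 : R) + 1)) * ((k.factorial : R) * g0 ^ k * ψ.coeff x.2) := by
            ring
          rw [e]; exact Dvd.dvd.mul_left this _
        have hC := Dvd.dvd.mul_left h1 ((k.factorial : R) * g0 ^ k)
        have hD := (hC.sub hA).add hB
        have e : (k.factorial : R) * g0 ^ k * (g.coeff 0 * (ψ.coeff (k + 1) * ((k : R) + 1)) + S1 - S2)
            - (k.factorial : R) * g0 ^ k * S1 + (k.factorial : R) * g0 ^ k * S2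
            = ((k + 1).factorial : R) * g0 ^ (k + 1) * ψ.coeff (k + 1) := by
          rw [Nat.factorial_succ, ← hg0]; push_cast; ring
        rw [e] at hD
        exact hD
  rw [eval_eq_sum_range]
  refine Finset.dvd_sum fun k _ => ?_
  rcases Nat.eq_zero_or_pos k with rfl | hk
  · rw [hψ0]; simp
  · have h1 := key k
    have h2 : (p : R) ^ j ∣ (k.factorial : R) * ψ.coeff k := by
      have h3 : ¬ (p : R) ∣ g0 ^ k := fun h => hg (hpR.dvd_of_dvd_pow h)
      have h4 : (p : R) ^ j ∣ g0 ^ k * ((k.factorial : R) * ψ.coeff k) := by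
        have e : g0 ^ k * ((k.factorial : R) * ψ.coeff k) = (k.factorial : R) * g0 ^ k * ψ.coeff k := by
          ring
        rw [e]; exact h1
      exact hpR.pow_dvd_of_dvd_mul_left j h3 h4
    obtain ⟨v, w, hw, hvw⟩ := Nat.exists_eq_pow_mul_and_not_dvd (Nat.factorial_ne_zero k) p
      hp.out.ne_one
    have hv : v < k := by
      have h5 := padicValNat_factorial_lt_of_ne_zero (p := p) hk.ne'
      have h6 : p ^ v ∣ k.factorial := ⟨w, hvw⟩
      have h7 := (padicValNat_dvd_iff_le (Nat.factorial_ne_zero k)).1 h6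
      omega
    have h8 : (p : R) ^ j ∣ (p : R) ^ v * ψ.coeff k := by
      have h9 : (p : R) ^ j ∣ (w : R) * ((p : R) ^ v * ψ.coeff k) := by
        have e : (w : R) * ((p : R) ^ v * ψ.coeff k) = (k.factorial : R) * ψ.coeff k := by
          rw [hvw]; push_cast; ring
        rw [e]; exact h2
      exact hpR.pow_dvd_of_dvd_mul_left j (fun h => hw (hcop w h)) h9
    obtain ⟨d, hd⟩ := h8
    have e : ψ.coeff k * ((p : R) * h) ^ k
        = (p : R) ^ (j + 1) * (d * (p : R) ^ (k - (v + 1)) * h ^ k) := by
      have e1 : (p : R) ^ k = (p : R) ^ v * (p : R) * (p : R) ^ (k - (v + 1)) := by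
        rw [← pow_succ, ← pow_add]; congr 1; omega
      rw [mul_pow, e1]
      calc ψ.coeff k * ((p : R) ^ v * (p : R) * (p : R) ^ (k - (v + 1)) * h ^ k)
          = ((p : R) ^ v * ψ.coeff k) * ((p : R) * (p : R) ^ (k - (v + 1)) * h ^ k) := by ring
        _ = _ := by rw [hd]; ring
    rw [e]
    exact Dvd.intro _ rfl

end CK
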