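import Pool.Agent.Helper472.CK.Taylor

open Polynomial

namespace CK

theorem prime_natCast_polyZ (p : ℕ) [hp : Fact p.Prime] : Prime (p : ℤ[X]) := by
  have : (p : ℤ[X]) = C (p : ℤ) := by simp
  rw [this, Polynomial.prime_C_iff]
  exact Nat.prime_iff_prime_int.1 hp.out

theorem natCast_dvd_natCast_polyZ (p n : ℕ) (h : (p : ℤ[X]) ∣ (n : ℤ[X])) : p ∣ n := by
  have e1 : (p : ℤ[X]) = C (p : ℤ) := by simp
  have e2 : (n : ℤ[X]) = C (n : ℤ) := by simp
  rw [e1, e2, C_dvd_iff_dvd_coeff] at h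
  have := h 0
  rw [coeff_C_zero] at this
  exact_mod_cast this

theorem taylor_app (p : ℕ) [hp : Fact p.Prime] (F G : ℤ[X]) (j : ℕ)
    (hW : (p : ℤ[X]) ^ j ∣ derivative F * G - F * derivative G) (T1 T2 : ℤ[X])
    (hT : (p : ℤ[X]) ∣ T2 - T1) (hG : ¬ (p : ℤ[X]) ∣ G.comp T1) :
    (p : ℤ[X]) ^ (j + 1) ∣ F.comp T2 * G.comp T1 - F.comp T1 * G.comp T2 := by
  obtain ⟨h, hh⟩ := hT
  set φ : ℤ[X] →+* ℤ[X][X] := (compRingHom (X + C T1)).comp (mapRingHom C) with hφ
  have hφa : ∀ P : ℤ[X], φ P = (P.map C).comp (X + C T1) := fun P => rfl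
  have hev : ∀ (P : ℤ[X]) (y : ℤ[X]), (φ P).eval y = P.comp (y + T1) := by
    intro P y
    rw [hφa, eval_comp, eval_map, comp]
    simp
  have hc0 : ∀ P : ℤ[X], (φ P).coeff 0 = P.comp T1 := by
    intro P
    rw [coeff_zero_eq_eval_zero, hev, zero_add]
  have hder : ∀ P : ℤ[X], derivative (φ P) = φ (derivative P) := by
    intro P
    rw [hφa, hφa, derivative_comp, derivative_map]
    simp
  have h1 := taylor_dvd (R := ℤ[X]) p (prime_natCast_polyZ p) (natCast_dvd_natCast_polyZ p)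
    (φ F) (φ G) j (by
      rw [hder, hder]
      have h2 := map_dvd φ hW
      rw [map_sub, map_mul, map_mul] at h2
      have e : φ ((p : ℤ[X]) ^ j) = C ((p : ℤ[X]) ^ j) := by
        rw [map_pow, map_natCast, map_pow, map_natCast]
      rw [e] at h2
      exact h2) (by rw [hc0]; exact hG) h
  rw [eval_sub, eval_mul, eval_mul, eval_C, eval_C, hev, hev, hc0, hc0] at h1
  have e : (p : ℤ[X]) * h + T1 = T2 := by rw [← hh]; ring
  rw [e] at h1
  exact h1

end CK
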