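import Pool.Agent.Helper472.CK.Exist

open Polynomial

namespace CK

/-- A `∇`-stable syzygy over `ℤ/p^(n+1)` of type `(A,B,C)`, of degree `≤ e`, nonzero mod `p`. -/
def HasSyz (p n A B C e : ℕ) : Prop :=
  ∃ G1 R : (ZMod (p ^ (n + 1)))[X], X ^ A ∣ G1 ∧ red p n R ≠ 0 ∧ G1.natDegree ≤ e ∧
    (G1 + (X + 1) ^ C * R).natDegree + B ≤ e ∧
    derivative G1 * ((X + 1) ^ C * R) - G1 * derivative ((X + 1) ^ C * R) = 0

/-- the defining properties of the exact syzygy of odd type. -/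
def IsOdd (a b c : ℕ) (F1 V : ℤ[X]) (θ : ℤ) : Prop :=
  X ^ (a + b + 1) ∣ F1 ∧
    V.IsPrimitive ∧ F1.natDegree ≤ a + b + c + 1 ∧
    (F1 + (X + 1) ^ (a + c + 1) * V).natDegree ≤ a ∧
    derivative F1 * ((X + 1) ^ (a + c + 1) * V) - F1 * derivative ((X + 1) ^ (a + c + 1) * V)
      = C θ * (X ^ (a + b) * (X + 1) ^ (a + c))

theorem natDegree_X_add_one_pow {S : Type*} [CommRing S] [Nontrivial S] (n : ℕ) :
    ((X + 1 : S[X]) ^ n).natDegree = n := by
  have := natDegree_pow_X_add_C n (1 : S); simpa using this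

theorem deriv_eq {S : Type*} [CommRing S] (a b c d : S[X]) (h : a * b = c * d) :
    derivative a * b + a * derivative b = derivative c * d + c * derivative d := by
  rw [← derivative_mul, ← derivative_mul, h]

theorem toS_C (m : ℕ) (z : ℤ) : toS m (C z) = C (z : ZMod m) := by
  have e : toS m (C z) = C (Int.castRingHom (ZMod m) z) := map_C _
  rw [e, eq_intCast]

theorem red_X (p n : ℕ) : red p n X = X := by simp [red]

theorem theta_dvd (p n : ℕ) [hp : Fact p.Prime] (a b c : ℕ) (F1 V : ℤ[X]) (θ : ℤ)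
    (hF : IsOdd a b c F1 V θ)
    (hG : HasSyz p n (a + b + 1) (b + c + 1) (a + c + 1) (a + b + c + 1)) :
    (p : ℤ) ^ (n + 1) ∣ θ := by
  obtain ⟨hF1, hVp, hF1d, hFs, hFW⟩ := hF
  obtain ⟨g1, R, hg1, hR, hg1d, hgs, hgW⟩ := hG
  have hp1 : (1 : ℕ) < p ^ (n + 1) := Nat.one_lt_pow (Nat.succ_ne_zero n) hp.out.one_lt
  have : Fact (1 < p ^ (n + 1)) := ⟨hp1⟩
  have : Nontrivial (ZMod (p ^ (n + 1))) := ZMod.nontrivial _
  set F3 := (X + 1) ^ (a + c + 1) * V with hF3
  set f1 := toS (p ^ (n + 1)) F1 with hf1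
  set f3 := toS (p ^ (n + 1)) F3 with hf3
  set g3 := (X + 1) ^ (a + c + 1) * R with hg3
  have hf3' : f3 = (X + 1) ^ (a + c + 1) * toS (p ^ (n + 1)) V := by
    rw [hf3, hF3, map_mul]; simp [toS_X]
  have hf1' : X ^ (a + b + 1) ∣ f1 := by
    have := map_dvd (toS (p ^ (n + 1))) hF1
    simpa [toS_X] using this
  have hf1d : f1.natDegree ≤ a + b + c + 1 := (toS_natDegree_le _ _).trans hF1d
  have hfs : (f1 + f3).natDegree ≤ a := by
    rw [hf1, hf3, ← map_add]; exact (toS_natDegree_le _ _).trans hFs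
  have hH : f1 * g3 - g1 * f3 = 0 := by
    by_contra hne
    have hmon : ((X : (ZMod (p ^ (n + 1)))[X]) ^ (a + b + 1) * (X + 1) ^ (a + c + 1)).Monic :=
      (monic_X_pow _).mul (X_add_one_monic.pow _)
    have hmd : ((X : (ZMod (p ^ (n + 1)))[X]) ^ (a + b + 1) * (X + 1) ^ (a + c + 1)).natDegree
        = (a + b + 1) + (a + c + 1) := by
      rw [(monic_X_pow _).natDegree_mul (X_add_one_monic.pow _), natDegree_X_pow,
        natDegree_X_add_one_pow]
    apply hmon.not_dvd_of_natDegree_lt hne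
    · rw [hmd]
      have e1 : f1 * g3 - g1 * f3 = f1 * (g1 + g3) - g1 * (f1 + f3) := by ring
      rw [e1]
      have h1 : (f1 * (g1 + g3)).natDegree ≤ (a + b + c + 1) + a := by
        refine natDegree_mul_le.trans ?_
        omega
      have h2 : (g1 * (f1 + f3)).natDegree ≤ (a + b + c + 1) + a := by
        refine natDegree_mul_le.trans ?_
        omega
      have h3 := natDegree_sub_le (f1 * (g1 + g3)) (g1 * (f1 + f3))
      have h4 : max (f1 * (g1 + g3)).natDegree (g1 * (f1 + f3)).natDegree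
        ≤ (a + b + c + 1) + a := max_le h1 h2
      omega
    · apply (isCoprime_X_pow (S := ZMod (p ^ (n + 1))) (a + b + 1) (a + c + 1)).mul_dvd
      · exact dvd_sub (Dvd.dvd.mul_right hf1' _) (Dvd.dvd.mul_right hg1 _)
      · apply dvd_sub
        · apply Dvd.dvd.mul_left; rw [hg3]; exact Dvd.intro _ rfl
        · apply Dvd.dvd.mul_left; rw [hf3']; exact Dvd.intro _ rfl
  have hh : f1 * g3 = g1 * f3 := sub_eq_zero.1 hH
  have hh' : derivative f1 * g3 + f1 * derivative g3 = derivative g1 * f3 + g1 * derivative f3 := by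
    exact deriv_eq _ _ _ _ hh
  have hkey : (derivative f1 * f3 - f1 * derivative f3) * (g3 * g3) = 0 := by
    have e1 : (derivative f1 * f3 - f1 * derivative f3) * (g3 * g3)
        = f3 * f3 * (derivative g1 * g3 - g1 * derivative g3) := by
      linear_combination (f3 * g3) * hh' - (derivative f3 * g3 + f3 * derivative g3) * hh
    rw [e1, hgW, mul_zero]
  have hW' : derivative f1 * f3 - f1 * derivative f3
      = C (θ : ZMod (p ^ (n + 1))) * (X ^ (a + b) * (X + 1) ^ (a + c)) := by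
    rw [hf1, hf3, derivative_toS, derivative_toS, ← map_mul, ← map_mul, ← map_sub, hFW,
      map_mul, toS_C]
    simp [toS_X]
  rw [hW', mul_assoc] at hkey
  apply dvd_of_mul_eq_zero p n θ _ hkey
  rw [hg3]
  simp only [map_mul, map_pow, map_add, map_one, red_X]
  have hx : (X : (ZMod p)[X]) ≠ 0 := X_ne_zero
  have hx1 := (X_add_one_prime p).ne_zero
  exact mul_ne_zero (mul_ne_zero (pow_ne_zero _ hx) (pow_ne_zero _ hx1)) (mul_ne_zero (mul_ne_zero (pow_ne_zero _ hx1) hR) (mul_ne_zero (pow_ne_zero _ hx1) hR))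

theorem HasSyz.transfer {p n A B C e : ℕ} [hp : Fact p.Prime] (h : HasSyz p n A B C e)
    (A' B' C' e' : ℕ) (he : e + (A' - A) + (C' - C) + (B' - B) ≤ e') : HasSyz p n A' B' C' e' := by
  obtain ⟨G1, R, h1, hR, hd1, hd2, hW⟩ := h
  have hp1 : (1 : ℕ) < p ^ (n + 1) := Nat.one_lt_pow (Nat.succ_ne_zero n) hp.out.one_lt
  have : Fact (1 < p ^ (n + 1)) := ⟨hp1⟩
  have : Nontrivial (ZMod (p ^ (n + 1))) := ZMod.nontrivial _
  set k : (ZMod (p ^ (n + 1)))[X] := X ^ (A' - A) * (X + 1) ^ (C' - C) with hk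
  have hkd : k.natDegree ≤ (A' - A) + (C' - C) := by
    rw [hk]
    refine natDegree_mul_le.trans ?_
    rw [natDegree_X_pow, natDegree_X_add_one_pow]
  have hR' : (X + 1) ^ C' * (X ^ (A' - A) * (X + 1) ^ (C' - C + C - C') * R)
      = k * ((X + 1) ^ C * R) := by
    have e1 : (X + 1 : (ZMod (p ^ (n + 1)))[X]) ^ C' * (X + 1) ^ (C' - C + C - C')
        = (X + 1) ^ (C' - C) * (X + 1) ^ C := by
      rw [← pow_add, ← pow_add]; congr 1; omega
    calc (X + 1) ^ C' * (X ^ (A' - A) * (X + 1) ^ (C' - C + C - C') * R)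
        = X ^ (A' - A) * ((X + 1) ^ C' * (X + 1) ^ (C' - C + C - C')) * R := by ring
      _ = _ := by rw [e1, hk]; ring
  refine ⟨k * G1, X ^ (A' - A) * (X + 1) ^ (C' - C + C - C') * R, ?_, ?_, ?_, ?_, ?_⟩
  · obtain ⟨K, hK⟩ := h1
    refine ⟨X ^ (A' - A + A - A') * (X + 1) ^ (C' - C) * K, ?_⟩
    have e1 : (X : (ZMod (p ^ (n + 1)))[X]) ^ A' * X ^ (A' - A + A - A')
        = X ^ (A' - A) * X ^ A := by
      rw [← pow_add, ← pow_add]; congr 1; omega
    calc k * G1 = (X ^ (A' - A) * X ^ A) * (X + 1) ^ (C' - C) * K := by rw [hk, hK]; ring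
      _ = _ := by rw [← e1]; ring
  · simp only [map_mul, map_pow, map_add, map_one, red_X]
    have hx : (X : (ZMod p)[X]) ≠ 0 := X_ne_zero
    have hx1 := (X_add_one_prime p).ne_zero
    exact mul_ne_zero (mul_ne_zero (pow_ne_zero _ hx) (pow_ne_zero _ hx1)) hR
  · refine natDegree_mul_le.trans ?_
    omega
  · rw [hR', ← mul_add]
    have := natDegree_mul_le (p := k) (q := G1 + (X + 1) ^ C * R)
    omega
  · rw [hR', wr_mul, hW, mul_zero]

/-- nested scales -/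
def Deep (p : ℕ) : ℕ → ℕ → ℕ → ℕ → Prop
  | 0, _, _, _ => True
  | l + 1, a, b, c => ∃ s, 1 ≤ s ∧ p ^ s - 1 ≤ a % p ^ s + b % p ^ s + c % p ^ s ∧
      a % p ^ s + b % p ^ s + c % p ^ s + 2 ≤ 2 * p ^ s ∧
      Deep p l (a / p ^ s) (b / p ^ s) (c / p ^ s)

theorem center_syz (p s l : ℕ) [hp : Fact p.Prime] (hs : 1 ≤ s) (a b c : ℕ) (F1 V : ℤ[X]) (θ : ℤ)
    (hF : IsOdd a b c F1 V θ) (hθ : (p : ℤ) ^ l ∣ θ) :
    HasSyz p l (p ^ s * (a + b + 1)) (p ^ s * (b + c + 1)) (p ^ s * (a + c + 1))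
      (p ^ s * (a + b + c + 1)) := by
  obtain ⟨hF1, hVp, hF1d, hFs, hFW⟩ := hF
  obtain ⟨G1, R, h1, h2, h3, h4, h5⟩ := frobenius p s l hs (a + b + 1) (a + c + 1) (a + b + c + 1) a
    F1 V hF1 (primitive_not_dvd p hVp) (by
      rw [hFW]
      apply Dvd.dvd.mul_right
      have e : (p : ℤ[X]) ^ l = C ((p : ℤ) ^ l) := by simp
      rw [e]
      exact map_dvd C hθ) hF1d hFs
  refine ⟨G1, R, h1, h2, h3, ?_, h5⟩
  have e : p ^ s * (a + b + c + 1) = p ^ s * a + p ^ s * (b + c + 1) := by ring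
  rw [e]
  omega

theorem odd_arith (m a b c x y z α β γ : ℕ) (ha : x + α = a) (hb : y + β = b) (hc : z + γ = c)
    (hα : α < m) (hβ : β < m) (hγ : γ < m) (h1 : m - 1 ≤ α + β + γ) (h2 : α + β + γ + 2 ≤ 2 * m) :
    x + y + z + m + (a + b + 1 - (x + y + m)) + (a + c + 1 - (x + z + m))
      + (b + c + 1 - (y + z + m)) ≤ a + b + c + 1 := by
  omega

theorem theta_of_deep (p : ℕ) [hp : Fact p.Prime] : ∀ (l a b c : ℕ), Deep p l a b c →
    ∀ (F1 V : ℤ[X]) (θ : ℤ), IsOdd a b c F1 V θ → (p : ℤ) ^ l ∣ θ := by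
  intro l
  induction l with
  | zero => intro a b c _ F1 V θ _; simp
  | succ l ih =>
    intro a b c hD F1 V θ hF
    obtain ⟨s, hs, hs1, hs2, hD'⟩ := hD
    obtain ⟨F1', V', θ', hF'⟩ := odd_exists (a / p ^ s) (b / p ^ s) (c / p ^ s)
    have hθ' := ih _ _ _ hD' F1' V' θ' hF'
    have hc := center_syz p s l hs _ _ _ F1' V' θ' hF' hθ'
    apply theta_dvd p l a b c F1 V θ hF
    apply hc.transfer
    have ha := Nat.div_add_mod a (p ^ s)
    have hb := Nat.div_add_mod b (p ^ s)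
    have hc := Nat.div_add_mod c (p ^ s)
    have hpos : 0 < p ^ s := pow_pos hp.out.pos _
    have ha' := Nat.mod_lt a hpos
    have hb' := Nat.mod_lt b hpos
    have hc' := Nat.mod_lt c hpos
    simp only [Nat.mul_add, Nat.mul_one]
    exact odd_arith _ _ _ _ _ _ _ _ _ _ ha hb hc ha' hb' hc' hs1 hs2

end CK
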