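import Pool.Agent.Helper472.CK.Det

namespace CK

open Finset

theorem hermite (m : ℕ) (hm : 0 < m) (y : ℕ) : ∑ i ∈ range m, (y + i) / m = y := by
  induction y with
  | zero =>
    apply Finset.sum_eq_zero
    intro i hi
    rw [Finset.mem_range] at hi
    rw [zero_add]; exact Nat.div_eq_of_lt hi
  | succ y ih =>
    have h1 : ∑ i ∈ range (m + 1), (y + i) / m = y + (y + m) / m := by
      rw [Finset.sum_range_succ, ih]
    rw [Finset.sum_range_succ'] at h1
    have h2 : ∑ i ∈ range m, (y + 1 + i) / m = ∑ i ∈ range m, (y + (i + 1)) / m := by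
      apply Finset.sum_congr rfl
      intro i _
      congr 1; ring
    rw [h2]
    have h3 : (y + m) / m = y / m + 1 := Nat.add_div_right y hm
    rw [h3, add_zero] at h1
    omega

theorem sum_shift (m x q b : ℕ) (hm : 0 < m) :
    ∑ i ∈ range b, (m * q + x + i) / m = q * b + ∑ i ∈ range b, (x + i) / m := by
  have : ∀ i ∈ range b, (m * q + x + i) / m = q + (x + i) / m := by
    intro i _
    rw [add_assoc, Nat.mul_add_div hm]
  rw [Finset.sum_congr rfl this, Finset.sum_add_distrib]
  simp [mul_comm]

theorem sum_period (m x b : ℕ) (hm : 0 < m) :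
    ∑ i ∈ range (b + m), (x + i) / m = ∑ i ∈ range b, (x + i) / m + (x + b) := by
  rw [Finset.sum_range_add]
  congr 1
  rw [← hermite m hm (x + b)]
  apply Finset.sum_congr rfl
  intro i _
  congr 1; ring

theorem div_small (m n : ℕ) (hm : 0 < m) (h : n < 3 * m) :
    n / m = (if m ≤ n then 1 else 0) + (if 2 * m ≤ n then 1 else 0) := by
  split_ifs with h1 h2 h2
  · apply Nat.div_eq_of_lt_le
    · omega
    · have : (1 + 1).succ * m = 3 * m := rfl
      omega
  · apply Nat.div_eq_of_lt_le
    · omega
    · have : (1 + 0).succ * m = 2 * m := rfl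
      omega
  · omega
  · rw [Nat.div_eq_of_lt (by omega)]

theorem sum1 (m x : ℕ) (hx : x < m) : ∀ y, y ≤ m → ∑ i ∈ range y, (x + i) / m = x + y - m := by
  intro y
  induction y with
  | zero => intro _; simp; omega
  | succ y ih =>
    intro hy
    rw [Finset.sum_range_succ, ih (by omega), div_small m (x + y) (by omega) (by omega)]
    split_ifs <;> omega

theorem sum2 (m x z : ℕ) (hx : x < m) (hz : z < m) : ∀ y, y ≤ m →
    ∑ i ∈ range y, (x + z + i) / m = min y (x + y + z - m) + (x + y + z - 2 * m) := by
  intro y
  induction y with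
  | zero => intro _; simp; omega
  | succ y ih =>
    intro hy
    rw [Finset.sum_range_succ, ih (by omega), div_small m (x + z + y) (by omega) (by omega)]
    split_ifs <;> omega

theorem base_case (m x y z : ℕ) (hx : x < m) (hy : y < m) (hz : z < m) :
    ∑ i ∈ range y, (x + z + i) / m + ∑ i ∈ range y, i / m
      = ∑ i ∈ range y, (x + i) / m + ∑ i ∈ range y, (z + i) / m
        + min (x + y + z - m) (min x (min y (min z (min (m - x) (min (m - y) (min (m - z)
          (2 * m - (x + y + z)))))))) := by
  have h0 : ∑ i ∈ range y, i / m = 0 := by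
    apply Finset.sum_eq_zero
    intro i hi
    rw [Finset.mem_range] at hi
    exact Nat.div_eq_of_lt (by omega)
  rw [sum2 m x z hx hz y hy.le, h0, sum1 m x hx y hy.le, sum1 m z hz y hy.le]
  omega

theorem sum_floor (m a b c : ℕ) (hm : 0 < m) :
    ∑ i ∈ range b, (a + c + i) / m + ∑ i ∈ range b, i / m
      = ∑ i ∈ range b, (a + i) / m + ∑ i ∈ range b, (c + i) / m + mult m a b c := by
  have ha := Nat.div_add_mod a m
  have hb := Nat.div_add_mod b m
  have hc := Nat.div_add_mod c m
  have ha' := Nat.mod_lt a hm
  have hb' := Nat.mod_lt b hm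
  have hc' := Nat.mod_lt c hm
  unfold mult
  generalize a % m = x at *
  generalize b % m = y at *
  generalize c % m = z at *
  generalize a / m = q1 at *
  generalize b / m = q3 at *
  generalize c / m = q2 at *
  set K := min (x + y + z - m) (min x (min y (min z (min (m - x) (min (m - y) (min (m - z)
          (2 * m - (x + y + z)))))))) with hK
  -- reduce to residues in a, c
  suffices h : ∀ q, ∑ i ∈ range (m * q + y), (x + z + i) / m + ∑ i ∈ range (m * q + y), i / m
      = ∑ i ∈ range (m * q + y), (x + i) / m + ∑ i ∈ range (m * q + y), (z + i) / m + K by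
    have h1 := h q3
    rw [hb] at h1
    have e1 : ∑ i ∈ range b, (a + c + i) / m = (q1 + q2) * b + ∑ i ∈ range b, (x + z + i) / m := by
      rw [← sum_shift m (x + z) (q1 + q2) b hm]
      apply Finset.sum_congr rfl
      intro i _
      congr 1
      rw [← ha, ← hc]; ring
    have e2 : ∑ i ∈ range b, (a + i) / m = q1 * b + ∑ i ∈ range b, (x + i) / m := by
      rw [← sum_shift m x q1 b hm, ha]
    have e3 : ∑ i ∈ range b, (c + i) / m = q2 * b + ∑ i ∈ range b, (z + i) / m := by
      rw [← sum_shift m z q2 b hm, hc]
    rw [e1, e2, e3, add_mul]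
    omega
  intro q
  induction q with
  | zero =>
    rw [mul_zero, zero_add]
    exact base_case m x y z ha' hb' hc'
  | succ q ih =>
    have e : m * (q + 1) + y = (m * q + y) + m := by ring
    rw [e, sum_period m (x + z) _ hm, sum_period m x _ hm, sum_period m z _ hm]
    have e0 : ∑ i ∈ range (m * q + y + m), i / m = ∑ i ∈ range (m * q + y), i / m + (m * q + y) := by
      have := sum_period m 0 (m * q + y) hm
      simpa using this
    rw [e0]
    omega

end CK
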